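import Mathlib

/-!
# Two algebraically independent elements of an algebraically closed field
-/

namespace Pool.Agent.N197.Pln

open IntermediateField

variable {Ω : Type*} [Field Ω] [Algebra ℂ Ω]

theorem pair_iff (x y : Ω) : AlgebraicIndependent ℂ ![x, y] ↔
    Transcendental ℂ x ∧ Transcendental (adjoin ℂ {x}) y := by
  rw [AlgebraicIndependent.iff_transcendental_adjoin_image (1 : Fin 2)]
  have himg : (![x, y] '' ({1}ᶜ : Set (Fin 2))) = {x} := by
    ext z
    constructor
    · rintro ⟨i, hi, rfl⟩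
      fin_cases i
      · simp
      · simp at hi
    · rintro rfl
      exact ⟨0, by simp, by simp⟩
  rw [himg]
  have hu : AlgebraicIndependent ℂ (fun j : {j : Fin 2 // j ≠ 1} => ![x, y] j) ↔
      Transcendental ℂ x := by
    have : Subsingleton {j : Fin 2 // j ≠ 1} := by
      constructor
      rintro ⟨i, hi⟩ ⟨j, hj⟩
      apply Subtype.ext
      show i = j
      omega
    rw [algebraicIndependent_singleton_iff (⟨0, by simp⟩ : {j : Fin 2 // j ≠ 1})]
    rfl
  rw [hu, transcendental_adjoin_iff]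
  rfl

theorem pair_symm {x y : Ω} (h : AlgebraicIndependent ℂ ![x, y]) :
    AlgebraicIndependent ℂ ![y, x] := by
  have := h.comp (Equiv.swap (0 : Fin 2) 1) (Equiv.injective _)
  convert this using 1
  funext i
  fin_cases i <;> simp

/-- the algebraic closure of `ℂ(s)` in `Ω` -/
noncomputable def cl (s : Ω) : IntermediateField ℂ Ω :=
  (algebraicClosure (adjoin ℂ {s}) Ω).restrictScalars ℂ

theorem mem_cl {s x : Ω} : x ∈ cl s ↔ IsAlgebraic (adjoin ℂ {s}) x := by
  unfold cl
  rw [mem_restrictScalars]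
  exact mem_algebraicClosure_iff

theorem self_mem_cl (s : Ω) : s ∈ cl s := by
  rw [mem_cl]
  exact isAlgebraic_algebraMap (⟨s, mem_adjoin_simple_self ℂ s⟩ : adjoin ℂ {s})

theorem adjoin_le_cl (s : Ω) : adjoin ℂ {s} ≤ cl s := by
  rw [adjoin_le_iff]
  intro x hx
  rw [Set.mem_singleton_iff] at hx
  subst hx
  exact self_mem_cl _

/-- `cl s` is algebraically closed in `Ω` -/
theorem mem_cl_of_isAlgebraic {s x : Ω} (h : IsAlgebraic (cl s) x) : x ∈ cl s := by
  rw [mem_cl]
  let _ : Algebra (adjoin ℂ {s}) (cl s) := (inclusion (adjoin_le_cl s)).toAlgebra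
  have : IsScalarTower (adjoin ℂ {s}) (cl s) Ω := IsScalarTower.of_algebraMap_eq fun _ => rfl
  have : Algebra.IsAlgebraic (adjoin ℂ {s}) (cl s) := by
    constructor
    intro y
    have hy := mem_cl.mp y.2
    exact (isAlgebraic_algebraMap_iff (algebraMap (cl s) Ω).injective).mp hy
  exact h.restrictScalars (adjoin ℂ {s})

theorem root_mem_cl [IsAlgClosed Ω] {s a : Ω} (ha : a ∈ cl s) {n : ℕ} (hn : n ≠ 0) :
    ∃ b ∈ cl s, b ^ n = a := by
  obtain ⟨b, hb⟩ := IsAlgClosed.exists_pow_nat_eq a (Nat.pos_of_ne_zero hn)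
  refine ⟨b, mem_cl_of_isAlgebraic ?_, hb⟩
  have h1 : IsAlgebraic (cl s) (b ^ n) := by
    rw [hb]
    exact isAlgebraic_algebraMap (⟨a, ha⟩ : cl s)
  exact IsAlgebraic.of_pow (Nat.pos_of_ne_zero hn) h1

/-- a transcendental element over `ℂ(s)` is transcendental over `cl s` -/
theorem transcendental_cl {s t : Ω} (h : Transcendental (adjoin ℂ {s}) t) :
    Transcendental (cl s) t := by
  intro h1
  exact h (mem_cl.mp (mem_cl_of_isAlgebraic h1))

theorem transcendental_cl_iff_notMem {s t : Ω} : Transcendental (cl s) t ↔ t ∉ cl s := by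
  constructor
  · intro h h1
    exact h (isAlgebraic_algebraMap (⟨t, h1⟩ : cl s))
  · intro h h1
    exact h (mem_cl_of_isAlgebraic h1)

/-- an element of `cl s` transcendental over `ℂ` and one transcendental over `cl s` are algebraically
independent -/
theorem pair_of_cl {s x y : Ω} (hx : x ∈ cl s) (hx' : Transcendental ℂ x) (hy : y ∉ cl s) :
    AlgebraicIndependent ℂ ![x, y] := by
  rw [pair_iff]
  refine ⟨hx', fun h => hy ?_⟩
  apply mem_cl_of_isAlgebraic
  have hle : adjoin ℂ {x} ≤ cl s := by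
    rw [adjoin_le_iff]
    intro z hz
    rw [Set.mem_singleton_iff] at hz
    subst hz
    exact hx
  obtain ⟨p, hp, hpy⟩ := h
  refine ⟨p.map (inclusion hle).toRingHom, ?_, ?_⟩
  · rw [Polynomial.map_ne_zero_iff]
    · exact hp
    · exact (inclusion hle).toRingHom.injective
  · rw [← Polynomial.eval_map_algebraMap, Polynomial.map_map]
    rw [← Polynomial.eval_map_algebraMap] at hpy
    exact hpy

theorem notMem_cl {s t : Ω} (h : AlgebraicIndependent ℂ ![s, t]) : t ∉ cl s := by
  rw [← transcendental_cl_iff_notMem]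
  exact transcendental_cl ((pair_iff s t).mp h).2

/-- an algebraic element over `ℂ` is in `ℂ` -/
theorem mem_bot_of_isAlgebraic {x : Ω} (h : IsAlgebraic ℂ x) : ∃ c : ℂ, algebraMap ℂ Ω c = x := by
  have h1 : (minpoly ℂ x).degree = 1 :=
    IsAlgClosed.degree_eq_one_of_irreducible ℂ (minpoly.irreducible h.isIntegral)
  obtain ⟨c, hc⟩ := minpoly.mem_range_of_degree_eq_one ℂ x h1
  exact ⟨c, hc⟩

end Pool.Agent.N197.Pln
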