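import Mathlib

/-!
# Abelian covers of the projective plane: definitions

* `IsPlaneCurve f d`: `f ≠ 0` is a form of degree `d ≥ 1` in three variables over `ℂ`; it defines the plane
  curve `f = 0` of degree `d`.
* `lineDegree n d a`: let `a i` be integers modulo `n`; the sum of the `d i * a i / n`, where `a i` is
  represented by a number in `{0, ..., n - 1}`.
* `IsProductOfCurves K₁ K₂`: the subfields `K₁` and `K₂` of `Ω ⊇ ℂ` are function fields of curves over `ℂ`,
  and they are independent, so that `K₁ ⊔ K₂` is the function field of the product of the two curves.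
* `DominatedByCurves n f a`: there is a dominant rational map from the product of two curves to the surface
  `z ^ n = ∏ i, f i (x, y, 1) ^ a i`.
-/

namespace Pool.Agent.N197.Pln

open MvPolynomial

/-- `f ≠ 0` is a form of degree `d ≥ 1` in three variables -/
structure IsPlaneCurve (f : MvPolynomial (Fin 3) ℂ) (d : ℕ) : Prop where
  pos : 0 < d
  homogeneous : f.IsHomogeneous d
  ne_zero : f ≠ 0

/-- the degree `∑ i, d i * (a i / n)`, with `a i` represented in `{0, ..., n - 1}` -/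
def lineDegree {ι : Type} [Fintype ι] (n : ℕ) (d : ι → ℕ) (a : ι → ZMod n) : ℚ :=
  ∑ i, (d i : ℚ) * ((a i).val : ℚ) / (n : ℚ)

/-- `K₁` and `K₂` are the function fields of two curves, and `K₁ ⊔ K₂` is the function field of their
product -/
structure IsProductOfCurves {Ω : Type} [Field Ω] [Algebra ℂ Ω] (K₁ K₂ : IntermediateField ℂ Ω) :
    Prop where
  fg₁ : K₁.FG
  fg₂ : K₂.FG
  curves : ∃ u ∈ K₁, ∃ v ∈ K₂, AlgebraicIndependent ℂ ![u, v] ∧
    (∀ c ∈ K₁, IsAlgebraic (IntermediateField.adjoin ℂ {u}) c) ∧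
    (∀ c ∈ K₂, IsAlgebraic (IntermediateField.adjoin ℂ {v}) c)

/-- a product of two curves dominates the surface `z ^ n = ∏ i, f i (x, y, 1) ^ a i` -/
def DominatedByCurves {ι : Type} [Fintype ι] (n : ℕ) (f : ι → MvPolynomial (Fin 3) ℂ)
    (a : ι → ZMod n) : Prop :=
  ∃ (Ω : Type) (_ : Field Ω) (_ : Algebra ℂ Ω) (K₁ K₂ : IntermediateField ℂ Ω),
    IsProductOfCurves K₁ K₂ ∧ ∃ x ∈ K₁ ⊔ K₂, ∃ y ∈ K₁ ⊔ K₂, ∃ z ∈ K₁ ⊔ K₂,
      AlgebraicIndependent ℂ ![x, y] ∧ z ^ n = ∏ i, aeval ![x, y, 1] (f i) ^ (a i).val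

end Pool.Agent.N197.Pln
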