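import Pool.Agent.N197.Pln.Line
import Pool.Agent.N197.Pln.Base

/-!
# Generic points of the plane
-/

namespace Pool.Agent.N197.Pln

open MvPolynomial

section vec

variable {R : Type*} [CommRing R]

def det3 (a b c : Fin 3 → R) : R :=
  a 0 * (b 1 * c 2 - b 2 * c 1) + a 1 * (b 2 * c 0 - b 0 * c 2) + a 2 * (b 0 * c 1 - b 1 * c 0)

def dot (a b : Fin 3 → R) : R := a 0 * b 0 + a 1 * b 1 + a 2 * b 2

def cr (a b : Fin 3 → R) : Fin 3 → R :=
  ![a 1 * b 2 - a 2 * b 1, a 2 * b 0 - a 0 * b 2, a 0 * b 1 - a 1 * b 0]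

theorem det3_eq_dot (a b c : Fin 3 → R) : det3 a b c = dot (cr a b) c := by
  simp [det3, dot, cr]; ring

theorem cramer3 (a b c p : Fin 3 → R) (i : Fin 3) :
    det3 a b c * p i = det3 p b c * a i + det3 a p c * b i + det3 a b p * c i := by
  fin_cases i <;> simp [det3] <;> ring

theorem dot_eq_sum (a b : Fin 3 → R) : dot a b = ∑ i, a i * b i := by
  rw [Fin.sum_univ_three]; rfl

end vec

variable {Ω : Type*} [Field Ω] [Algebra ℂ Ω]

/-- the complex vector `v`, as a vector over `Ω` -/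
noncomputable def up (v : Fin 3 → ℂ) : Fin 3 → Ω := fun i => algebraMap ℂ Ω (v i)

/-- no form vanishes at `P` -/
def Generic (P : Fin 3 → Ω) : Prop :=
  ∀ (F : MvPolynomial (Fin 3) ℂ) (m : ℕ), F.IsHomogeneous m → F ≠ 0 → aeval P F ≠ 0

theorem Generic.affine {P : Fin 3 → Ω} (h : Generic P) :
    P 2 ≠ 0 ∧ AlgebraicIndependent ℂ ![P 0 / P 2, P 1 / P 2] := by
  have h2 : P 2 ≠ 0 := by
    have := h (X 2) 1 (isHomogeneous_X ℂ 2) (X_ne_zero _)
    rwa [aeval_X] at this
  refine ⟨h2, ?_⟩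
  rw [algebraicIndependent_iff]
  intro g hg
  by_contra hg0
  obtain ⟨N, hdeg⟩ : ∃ N, ∀ m ∈ g.support, m 0 + m 1 ≤ N := by
    refine ⟨g.totalDegree, ?_⟩
    intro m hm
    have := le_totalDegree hm
    rw [Finsupp.sum_fintype] at this
    · simpa [Fin.sum_univ_two] using this
    · simp
  let F : MvPolynomial (Fin 3) ℂ := ∑ m ∈ g.support,
    C (coeff m g) * (X 0 ^ m 0 * (X 1 ^ m 1 * X 2 ^ (N - (m 0 + m 1))))
  have hF : F.IsHomogeneous N := by
    apply IsHomogeneous.sum
    intro m hm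
    have h1 := ((isHomogeneous_X_pow (R := ℂ) (0 : Fin 3) (m 0)).mul
      ((isHomogeneous_X_pow (R := ℂ) (1 : Fin 3) (m 1)).mul
        (isHomogeneous_X_pow (R := ℂ) (2 : Fin 3) (N - (m 0 + m 1))))).C_mul (coeff m g)
    have h3 : m 0 + (m 1 + (N - (m 0 + m 1))) = N := by
      have := hdeg m hm
      omega
    rw [h3] at h1
    exact h1
  have hF0 : F ≠ 0 := by
    intro h0
    have h1 : aeval (![X 0, X 1, 1] : Fin 3 → MvPolynomial (Fin 2) ℂ) F = g := by
      simp only [F, map_sum, map_mul, algHom_C, map_pow, aeval_X, Matrix.cons_val_zero,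
        Matrix.cons_val_one, Matrix.cons_val, one_pow, mul_one]
      conv_rhs => rw [as_sum g]
      apply Finset.sum_congr rfl
      intro m _
      rw [monomial_eq, Finsupp.prod_fintype, Fin.prod_univ_two]
      · rfl
      · simp
    rw [h0, map_zero] at h1
    exact hg0 h1.symm
  have hv : aeval P F = P 2 ^ N * aeval (![P 0 / P 2, P 1 / P 2]) g := by
    conv_rhs => rw [as_sum g]
    simp only [F, map_sum, Finset.mul_sum]
    apply Finset.sum_congr rfl
    intro m hm
    rw [monomial_eq, Finsupp.prod_fintype, Fin.prod_univ_two]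
    · simp only [map_mul, algHom_C, map_pow, aeval_X, Matrix.cons_val_zero, Matrix.cons_val_one]
      have h3 : P 2 ^ N = P 2 ^ m 0 * P 2 ^ m 1 * P 2 ^ (N - (m 0 + m 1)) := by
        rw [← pow_add, ← pow_add]
        congr 1
        have := hdeg m hm
        omega
      rw [h3, div_pow, div_pow]
      field_simp
    · simp
  exact h F _ hF hF0 (by rw [hv, hg, mul_zero])

/-- the linear form with given coefficients -/
noncomputable def linF (c : Fin 3 → ℂ) : MvPolynomial (Fin 3) ℂ :=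
  C (c 0) * X 0 + C (c 1) * X 1 + C (c 2) * X 2

theorem eval_linF (c p : Fin 3 → ℂ) : eval p (linF c) = dot c p := by
  simp [linF, dot]

theorem linF_homogeneous (c : Fin 3 → ℂ) : (linF c).IsHomogeneous 1 :=
  ((isHomogeneous_C_mul_X _ _).add (isHomogeneous_C_mul_X _ _)).add (isHomogeneous_C_mul_X _ _)

/-- a form vanishing outside a line is zero -/
theorem eq_zero_of_vanish {F : MvPolynomial (Fin 3) ℂ} {c e : Fin 3 → ℂ} (he : dot c e ≠ 0)
    (h : ∀ p, dot c p ≠ 0 → eval p F = 0) : F = 0 := by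
  have h1 : F * linF c = 0 := by
    apply MvPolynomial.funext
    intro p
    rw [map_mul, map_zero, eval_linF]
    by_cases h2 : dot c p = 0
    · rw [h2, mul_zero]
    · rw [h p h2, zero_mul]
  rcases mul_eq_zero.mp h1 with h2 | h2
  · exact h2
  · exfalso
    apply he
    rw [← eval_linF, h2, map_zero]

theorem generic_pencil {w₀ w₁ v : Fin 3 → ℂ} (hdet : det3 w₀ w₁ v ≠ 0) {s z : Ω}
    (h : AlgebraicIndependent ℂ ![s, z]) :
    Generic (fun i => up w₀ i + s * up w₁ i + z * up v i) := by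
  intro F m hF hF0 hz
  apply hF0
  let G : MvPolynomial (Fin 2) ℂ := aeval (fun i => C (w₀ i) + X 0 * C (w₁ i) + X 1 * C (v i)) F
  have hG : G = 0 := by
    rw [algebraicIndependent_iff] at h
    apply h
    rw [← hz]
    have h1 := aeval_unique ((aeval ![s, z]).comp (aeval (R := ℂ) (fun i : Fin 3 =>
      (C (w₀ i) + X 0 * C (w₁ i) + X 1 * C (v i) : MvPolynomial (Fin 2) ℂ))))
    have h2 := DFunLike.congr_fun h1 F
    simp only [AlgHom.comp_apply] at h2
    show aeval ![s, z] G = _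
    simp only [G]
    rw [h2]
    congr 2
    funext i
    simp [up, algHom_C]
  have hval : ∀ x y : ℂ, eval (fun i => w₀ i + x * w₁ i + y * v i) F = 0 := by
    intro x y
    have h1 := aeval_unique ((aeval ![x, y]).comp (aeval (R := ℂ) (fun i : Fin 3 =>
      (C (w₀ i) + X 0 * C (w₁ i) + X 1 * C (v i) : MvPolynomial (Fin 2) ℂ))))
    have h2 := DFunLike.congr_fun h1 F
    simp only [AlgHom.comp_apply] at h2
    have h3 : aeval ![x, y] G = 0 := by rw [hG, map_zero]
    simp only [G] at h3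
    rw [h2] at h3
    rw [← h3]
    show aeval _ F = _
    congr 2
    funext i
    simp
  have he : dot (cr w₁ v) w₀ ≠ 0 := by
    have : dot (cr w₁ v) w₀ = det3 w₀ w₁ v := by simp [dot, cr, det3]; ring
    rwa [this]
  apply eq_zero_of_vanish he
  intro p hp
  set D := det3 w₀ w₁ v with hD
  set l := dot (cr w₁ v) p with hl
  have hl' : det3 p w₁ v = l := by rw [hl]; simp [dot, cr, det3]; ring
  have hp' : p = fun i => (l / D) * (w₀ i + (det3 w₀ p v / l) * w₁ i + (det3 w₀ w₁ p / l) * v i) := by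
    funext i
    have := cramer3 w₀ w₁ v p i
    rw [hl', ← hD] at this
    field_simp
    rw [mul_comm (p i) D, this]
  rw [hp']
  have h4 := aeval_smul hF (l / D) (fun i => w₀ i + (det3 w₀ p v / l) * w₁ i + (det3 w₀ w₁ p / l) * v i)
  have h5 : ∀ q : Fin 3 → ℂ, aeval q F = eval q F := fun q => rfl
  rw [h5, h5, hval, mul_zero] at h4
  exact h4

end Pool.Agent.N197.Pln
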