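import Pool.Agent.N197.Pln.Defs
import Pool.Agent.N197.Pln.Gen

/-!
# From a generic point to a dominant map
-/

namespace Pool.Agent.N197.Pln

open MvPolynomial IntermediateField

variable {Ω : Type} [Field Ω] [Algebra ℂ Ω]

theorem exists_finset_of_mem_sup {s t x : Ω} (h : x ∈ cl s ⊔ cl t) :
    ∃ T : Finset Ω, (T : Set Ω) ⊆ (cl s : Set Ω) ∪ cl t ∧ x ∈ adjoin ℂ (T : Set Ω) := by
  have h1 : x ∈ adjoin ℂ ((cl s : Set Ω) ∪ cl t) := by
    rw [adjoin_union, adjoin_self, adjoin_self]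
    exact h
  exact exists_finset_of_mem_adjoin h1

theorem exists_curves {s t x y z : Ω} (hst : AlgebraicIndependent ℂ ![s, t])
    (hx : x ∈ cl s ⊔ cl t) (hy : y ∈ cl s ⊔ cl t) (hz : z ∈ cl s ⊔ cl t) :
    ∃ K₁ K₂ : IntermediateField ℂ Ω, IsProductOfCurves K₁ K₂ ∧ x ∈ K₁ ⊔ K₂ ∧ y ∈ K₁ ⊔ K₂ ∧
      z ∈ K₁ ⊔ K₂ := by
  classical
  obtain ⟨Tx, hTx, hx'⟩ := exists_finset_of_mem_sup hx
  obtain ⟨Ty, hTy, hy'⟩ := exists_finset_of_mem_sup hy
  obtain ⟨Tz, hTz, hz'⟩ := exists_finset_of_mem_sup hz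
  let T : Finset Ω := (Tx ∪ Ty ∪ Tz) ∪ {s, t}
  have hT : (T : Set Ω) ⊆ (cl s : Set Ω) ∪ cl t := by
    intro a ha
    simp only [T, Finset.coe_union, Finset.coe_insert, Finset.coe_singleton, Set.mem_union,
      Set.mem_insert_iff, Set.mem_singleton_iff, Finset.mem_coe] at ha
    rcases ha with ((h | h) | h) | (h | h)
    · exact hTx h
    · exact hTy h
    · exact hTz h
    · rw [h]; exact Or.inl (self_mem_cl s)
    · rw [h]; exact Or.inr (self_mem_cl t)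
  let T₁ : Finset Ω := T.filter (· ∈ cl s)
  let T₂ : Finset Ω := T.filter (· ∈ cl t)
  have hle₁ : adjoin ℂ (T₁ : Set Ω) ≤ cl s := by
    rw [adjoin_le_iff]
    intro a ha
    exact (Finset.mem_filter.mp (Finset.mem_coe.mp ha)).2
  have hle₂ : adjoin ℂ (T₂ : Set Ω) ≤ cl t := by
    rw [adjoin_le_iff]
    intro a ha
    exact (Finset.mem_filter.mp (Finset.mem_coe.mp ha)).2
  have hsup : adjoin ℂ (T : Set Ω) ≤ adjoin ℂ (T₁ : Set Ω) ⊔ adjoin ℂ (T₂ : Set Ω) := by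
    rw [← adjoin_union]
    apply adjoin.mono
    intro a ha
    rcases hT ha with h | h
    · exact Or.inl (Finset.mem_coe.mpr (Finset.mem_filter.mpr ⟨Finset.mem_coe.mp ha, h⟩))
    · exact Or.inr (Finset.mem_coe.mpr (Finset.mem_filter.mpr ⟨Finset.mem_coe.mp ha, h⟩))
  refine ⟨adjoin ℂ (T₁ : Set Ω), adjoin ℂ (T₂ : Set Ω), ⟨⟨T₁, rfl⟩, ⟨T₂, rfl⟩,
    s, ?_, t, ?_, hst, ?_, ?_⟩, ?_, ?_, ?_⟩
  · apply subset_adjoin
    simp only [T₁, T, Finset.coe_filter]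
    exact ⟨by simp, self_mem_cl s⟩
  · apply subset_adjoin
    simp only [T₂, T, Finset.coe_filter]
    exact ⟨by simp, self_mem_cl t⟩
  · intro c hc
    exact mem_cl.mp (hle₁ hc)
  · intro c hc
    exact mem_cl.mp (hle₂ hc)
  · apply hsup
    refine adjoin.mono ℂ _ _ ?_ hx'
    intro a ha
    simp only [T, Finset.coe_union]
    exact Or.inl (Or.inl (Or.inl ha))
  · apply hsup
    refine adjoin.mono ℂ _ _ ?_ hy'
    intro a ha
    simp only [T, Finset.coe_union]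
    exact Or.inl (Or.inl (Or.inr ha))
  · apply hsup
    refine adjoin.mono ℂ _ _ ?_ hz'
    intro a ha
    simp only [T, Finset.coe_union]
    exact Or.inl (Or.inr ha)

theorem dominated_of_point {s t : Ω} (hst : AlgebraicIndependent ℂ ![s, t]) {ι : Type} [Fintype ι]
    {n : ℕ} {f : ι → MvPolynomial (Fin 3) ℂ} {d : ι → ℕ} {a : ι → ZMod n}
    (hf : ∀ i, (f i).IsHomogeneous (d i)) {P : Fin 3 → Ω} (hP : ∀ k, P k ∈ cl s ⊔ cl t)
    (hgen : Generic P) {m : ℕ} (hm : ∑ i, d i * (a i).val = n * m) {w : Ω}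
    (hw : w ∈ cl s ⊔ cl t) (hwn : w ^ n = ∏ i, aeval P (f i) ^ (a i).val) :
    DominatedByCurves n f a := by
  obtain ⟨h2, hind⟩ := hgen.affine
  have hz : w / P 2 ^ m ∈ cl s ⊔ cl t := div_mem hw (pow_mem (hP 2) m)
  obtain ⟨K₁, K₂, hK, hx, hy, hz'⟩ := exists_curves hst (div_mem (hP 0) (hP 2))
    (div_mem (hP 1) (hP 2)) hz
  refine ⟨Ω, inferInstance, inferInstance, K₁, K₂, hK, P 0 / P 2, hx, P 1 / P 2, hy,
    w / P 2 ^ m, hz', hind, ?_⟩
  have hval : ∀ i, aeval ![P 0 / P 2, P 1 / P 2, 1] (f i) = (P 2)⁻¹ ^ d i * aeval P (f i) := by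
    intro i
    rw [← aeval_smul (hf i)]
    congr 2
    funext k
    fin_cases k
    · simp [div_eq_inv_mul]
    · simp [div_eq_inv_mul]
    · simp [h2]
  simp only [hval, mul_pow, Finset.prod_mul_distrib]
  rw [← hwn, div_pow]
  simp only [← pow_mul]
  rw [Finset.prod_pow_eq_pow_sum, hm, inv_pow, mul_comm m n]
  field_simp

end Pool.Agent.N197.Pln
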