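import Mathlib

/-!
# Restriction of a form to a line

`lineP f b τ` is the polynomial `f (b + X τ)` in one variable.
-/

namespace Pool.Agent.N197.Pln

open MvPolynomial

variable {E : Type*} [Field E] [Algebra ℂ E]

/-- `f (b + X τ)` -/
noncomputable def lineP (f : MvPolynomial (Fin 3) ℂ) (b τ : Fin 3 → E) : Polynomial E :=
  aeval (fun i => Polynomial.C (b i) + Polynomial.X * Polynomial.C (τ i)) f

theorem eval_lineP (f : MvPolynomial (Fin 3) ℂ) (b τ : Fin 3 → E) (z : E) :
    (lineP f b τ).eval z = aeval (fun i => b i + z * τ i) f := by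
  unfold lineP
  have h1 := (aeval_unique ((Polynomial.aeval z : Polynomial E →ₐ[E] E).restrictScalars ℂ |>.comp
    (aeval (R := ℂ) (fun i => Polynomial.C (b i) + Polynomial.X * Polynomial.C (τ i)))))
  have h2 := DFunLike.congr_fun h1 f
  simp only [AlgHom.comp_apply, AlgHom.restrictScalars_apply, Polynomial.coe_aeval_eq_eval] at h2
  rw [h2]
  congr 1
  congr 1
  funext i
  simp
  exact mul_comm _ _

theorem aeval_map_lineP {E' : Type*} [Field E'] [Algebra ℂ E'] [Algebra E E'] [IsScalarTower ℂ E E']
    (f : MvPolynomial (Fin 3) ℂ) (b τ : Fin 3 → E) :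
    (lineP f b τ).map (algebraMap E E') =
      lineP f (fun i => algebraMap E E' (b i)) (fun i => algebraMap E E' (τ i)) := by
  unfold lineP
  have h1 := aeval_unique ((Polynomial.mapAlgHom (IsScalarTower.toAlgHom ℂ E E')).comp
    (aeval (R := ℂ) (fun i => Polynomial.C (b i) + Polynomial.X * Polynomial.C (τ i))))
  have h2 := DFunLike.congr_fun h1 f
  simp only [AlgHom.comp_apply, Polynomial.coe_mapAlgHom] at h2
  have h3 : ((IsScalarTower.toAlgHom ℂ E E' : E →ₐ[ℂ] E') : E →+* E') = algebraMap E E' := by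
    ext x; rfl
  rw [h3] at h2
  rw [h2]
  congr 1
  congr 1
  funext i
  simp

theorem lineP_C (a : ℂ) (b τ : Fin 3 → E) : lineP (C a) b τ = Polynomial.C (algebraMap ℂ E a) := by
  unfold lineP
  simp [algHom_C, Polynomial.algebraMap_apply]

theorem lineP_add (f g : MvPolynomial (Fin 3) ℂ) (b τ : Fin 3 → E) :
    lineP (f + g) b τ = lineP f b τ + lineP g b τ := by
  unfold lineP; rw [map_add]

theorem lineP_mul (f g : MvPolynomial (Fin 3) ℂ) (b τ : Fin 3 → E) :
    lineP (f * g) b τ = lineP f b τ * lineP g b τ := by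
  unfold lineP; rw [map_mul]

theorem lineP_X (i : Fin 3) (b τ : Fin 3 → E) :
    lineP (X i) b τ = Polynomial.C (b i) + Polynomial.X * Polynomial.C (τ i) := by
  unfold lineP; rw [aeval_X]

theorem derivative_lineP (f : MvPolynomial (Fin 3) ℂ) (b τ : Fin 3 → E) :
    Polynomial.derivative (lineP f b τ) = ∑ k, Polynomial.C (τ k) * lineP (pderiv k f) b τ := by
  induction f using MvPolynomial.induction_on with
  | C a => simp [lineP_C, show lineP (0 : MvPolynomial (Fin 3) ℂ) b τ = 0 by
      unfold lineP; simp]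
  | add p q hp hq =>
    simp only [lineP_add, map_add, hp, hq, mul_add, Finset.sum_add_distrib]
  | mul_X p i hp =>
    rw [lineP_mul, Polynomial.derivative_mul, hp, lineP_X]
    have h1 : ∀ k, lineP (pderiv k (p * X i)) b τ =
        lineP (pderiv k p) b τ * lineP (X i) b τ + lineP p b τ * (if k = i then 1 else 0) := by
      intro k
      rw [Derivation.leibniz, lineP_add, smul_eq_mul, smul_eq_mul, lineP_mul, lineP_mul, pderiv_X]
      rw [add_comm]
      congr 1
      · ring
      · by_cases h : k = i
        · subst h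
          simp [lineP]
        · rw [if_neg h, Pi.single_eq_of_ne (fun h' => h h'.symm)]
          simp [lineP]
    have h2 : ∑ k, Polynomial.C (τ k) * lineP (pderiv k (p * X i)) b τ =
        (∑ k, Polynomial.C (τ k) * lineP (pderiv k p) b τ) * lineP (X i) b τ +
          Polynomial.C (τ i) * lineP p b τ := by
      simp only [h1, mul_add, Finset.sum_add_distrib]
      congr 1
      · rw [Finset.sum_mul]
        apply Finset.sum_congr rfl
        intro k _
        ring
      · simp
    rw [h2, lineP_X]
    simp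
    ring

theorem coeff_zero_lineP (f : MvPolynomial (Fin 3) ℂ) (b τ : Fin 3 → E) :
    (lineP f b τ).coeff 0 = aeval b f := by
  rw [Polynomial.coeff_zero_eq_eval_zero, eval_lineP]
  simp

theorem coeff_one_lineP (f : MvPolynomial (Fin 3) ℂ) (b τ : Fin 3 → E) :
    (lineP f b τ).coeff 1 = ∑ k, τ k * aeval b (pderiv k f) := by
  have h := congrArg (fun p => Polynomial.coeff p 0) (derivative_lineP f b τ)
  simp only [Polynomial.coeff_derivative] at h
  rw [Polynomial.finsetSum_coeff] at h
  simp only [Polynomial.mul_coeff_zero, Polynomial.coeff_C_zero, coeff_zero_lineP] at h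
  simpa using h

theorem natDegree_lineP_le {f : MvPolynomial (Fin 3) ℂ} {d : ℕ} (hf : f.IsHomogeneous d)
    (b τ : Fin 3 → E) : (lineP f b τ).natDegree ≤ d := by
  unfold lineP
  rw [aeval_def, eval₂_eq]
  apply Polynomial.natDegree_sum_le_of_forall_le
  intro m hm
  have hd : ∑ i, m i = d := by
    have h1 := hf (mem_support_iff.mp hm)
    rw [← h1]
    rw [Finsupp.weight_apply, Finsupp.sum_fintype]
    · simp
    · simp
  refine le_trans (Polynomial.natDegree_mul_le) ?_
  have h1 : ((algebraMap ℂ (Polynomial E)) (coeff m f)).natDegree = 0 := by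
    rw [Polynomial.algebraMap_apply]
    exact Polynomial.natDegree_C _
  rw [h1, zero_add]
  refine le_trans (Polynomial.natDegree_prod_le _ _) ?_
  have h2 : ∀ i, ((Polynomial.C (b i) + Polynomial.X * Polynomial.C (τ i)) ^ m i).natDegree ≤ m i := by
    intro i
    refine le_trans Polynomial.natDegree_pow_le ?_
    have h3 : (Polynomial.C (b i) + Polynomial.X * Polynomial.C (τ i)).natDegree ≤ 1 := by
      compute_degree
    calc m i * _ ≤ m i * 1 := Nat.mul_le_mul_left _ h3
      _ = m i := mul_one _
  refine le_trans (Finset.sum_le_sum (fun i _ => h2 i)) ?_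
  rw [← hd]
  exact Finset.sum_le_sum_of_subset (Finset.subset_univ _)

theorem aeval_smul {f : MvPolynomial (Fin 3) ℂ} {d : ℕ} (hf : f.IsHomogeneous d) (c : E)
    (p : Fin 3 → E) : aeval (fun i => c * p i) f = c ^ d * aeval p f := by
  rw [aeval_def, aeval_def, eval₂_eq, eval₂_eq, Finset.mul_sum]
  apply Finset.sum_congr rfl
  intro m hm
  have hd : ∑ i, m i = d := by
    have h1 := hf (mem_support_iff.mp hm)
    rw [← h1]
    rw [Finsupp.weight_apply, Finsupp.sum_fintype]
    · simp
    · simp
  have h2 : ∀ x : Fin 3 → E, ∏ i ∈ m.support, x i ^ m i = ∏ i, x i ^ m i := by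
    intro x
    apply Finset.prod_subset (Finset.subset_univ _)
    intro i _ hi
    rw [Finsupp.notMem_support_iff.mp hi, pow_zero]
  rw [h2, h2]
  simp only [mul_pow, Finset.prod_mul_distrib]
  rw [Finset.prod_pow_eq_pow_sum, hd]
  ring

/-- `f (τ + z b) = z ^ d f (b + z⁻¹ τ)` -/
theorem aeval_reverse {f : MvPolynomial (Fin 3) ℂ} {d : ℕ} (hf : f.IsHomogeneous d)
    (b τ : Fin 3 → E) {z : E} (hz : z ≠ 0) :
    aeval (fun i => τ i + z * b i) f = z ^ d * aeval (fun i => b i + z⁻¹ * τ i) f := by
  rw [← aeval_smul hf]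
  congr 2
  funext i
  field_simp
  ring

/-- `f (τ + z b)` is the value at `z` of the reversed polynomial `f (b + X τ)` -/
theorem eval_reflect_lineP {f : MvPolynomial (Fin 3) ℂ} {d : ℕ} (hf : f.IsHomogeneous d)
    (b τ : Fin 3 → E) : Polynomial.reflect d (lineP f b τ) = lineP f τ b := by
  have hinf : Set.Infinite {z : E | z ≠ 0} := by
    have : Infinite E := Infinite.of_injective _ (algebraMap ℂ E).injective
    have := Set.Finite.infinite_compl (Set.finite_singleton (0 : E))
    convert this using 1
    ext z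
    simp
  apply Polynomial.eq_of_infinite_eval_eq
  apply hinf.mono
  intro z hz
  have hz : z ≠ 0 := hz
  show Polynomial.eval z _ = Polynomial.eval z _
  rw [eval_lineP, aeval_reverse hf _ _ hz, ← eval_lineP]
  let _ : Invertible z⁻¹ := invertibleOfNonzero (inv_ne_zero hz)
  have h := Polynomial.eval₂_reflect_mul_pow (RingHom.id E) z⁻¹ d (lineP f b τ)
    (natDegree_lineP_le hf b τ)
  rw [invOf_eq_inv, inv_inv] at h
  rw [Polynomial.eval₂_id, Polynomial.eval₂_id] at h
  rw [← h]
  rw [mul_left_comm, ← mul_pow, mul_inv_cancel₀ hz, one_pow, mul_one]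

end Pool.Agent.N197.Pln
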