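import Pool.Agent.N197.Pln.Base

/-!
# Products of a function on the first and a function on the second curve
-/

namespace Pool.Agent.N197.Pln

open IntermediateField

variable {Ω : Type*} [Field Ω] [Algebra ℂ Ω]

/-- `x` is the product of an element of `cl s` and an element of `cl t` -/
def Split (s t x : Ω) : Prop := ∃ α ∈ cl s, ∃ β ∈ cl t, x = α * β

theorem Split.left {s t x : Ω} (h : x ∈ cl s) : Split s t x := ⟨x, h, 1, one_mem _, by ring⟩

theorem Split.right {s t x : Ω} (h : x ∈ cl t) : Split s t x := ⟨1, one_mem _, x, h, by ring⟩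

theorem Split.mul {s t x y : Ω} (hx : Split s t x) (hy : Split s t y) : Split s t (x * y) := by
  obtain ⟨α, hα, β, hβ, rfl⟩ := hx
  obtain ⟨α', hα', β', hβ', rfl⟩ := hy
  exact ⟨α * α', mul_mem hα hα', β * β', mul_mem hβ hβ', by ring⟩

theorem Split.pow {s t x : Ω} (hx : Split s t x) (n : ℕ) : Split s t (x ^ n) := by
  obtain ⟨α, hα, β, hβ, rfl⟩ := hx
  exact ⟨α ^ n, pow_mem hα n, β ^ n, pow_mem hβ n, by ring⟩

theorem Split.prod {s t : Ω} {ι : Type*} (S : Finset ι) (x : ι → Ω) (h : ∀ i ∈ S, Split s t (x i)) :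
    Split s t (∏ i ∈ S, x i) := by
  classical
  induction S using Finset.induction_on with
  | empty => simpa using Split.left (t := t) (one_mem (cl s))
  | insert a S ha ih =>
    rw [Finset.prod_insert ha]
    exact (h a (Finset.mem_insert_self _ _)).mul (ih fun i hi => h i (Finset.mem_insert_of_mem hi))

theorem Split.multiset_prod {s t : Ω} (S : Multiset Ω) (h : ∀ x ∈ S, Split s t x) :
    Split s t S.prod := by
  induction S using Multiset.induction_on with
  | empty => simpa using Split.left (t := t) (one_mem (cl s))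
  | cons a S ih =>
    rw [Multiset.prod_cons]
    exact (h a (Multiset.mem_cons_self _ _)).mul (ih fun i hi => h i (Multiset.mem_cons_of_mem hi))

theorem Split.root [IsAlgClosed Ω] {s t x : Ω} (h : Split s t x) {n : ℕ} (hn : n ≠ 0) :
    ∃ w ∈ cl s ⊔ cl t, w ^ n = x := by
  obtain ⟨α, hα, β, hβ, rfl⟩ := h
  obtain ⟨a, ha, ha'⟩ := root_mem_cl hα hn
  obtain ⟨b, hb, hb'⟩ := root_mem_cl hβ hn
  refine ⟨a * b, mul_mem ?_ ?_, by rw [mul_pow, ha', hb']⟩
  · exact (le_sup_left : cl s ≤ cl s ⊔ cl t) ha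
  · exact (le_sup_right : cl t ≤ cl s ⊔ cl t) hb

theorem exists_two {s t : Ω} (hst : AlgebraicIndependent ℂ ![s, t]) {ρ₁ ρ₂ : Ω} (h₁ : ρ₁ ∈ cl s)
    (h₂ : ρ₂ ∈ cl s) :
    ∃ z ∈ cl s ⊔ cl t, z ∉ cl s ∧ Split s t (z - ρ₁) ∧ Split s t (z - ρ₂) := by
  have ht := notMem_cl hst
  have hs' : cl s ≤ cl s ⊔ cl t := le_sup_left
  have ht' : cl t ≤ cl s ⊔ cl t := le_sup_right
  by_cases h : ρ₁ = ρ₂
  · subst h
    refine ⟨ρ₁ + t, add_mem (hs' h₁) (ht' (self_mem_cl t)), ?_, ?_, ?_⟩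
    · intro h
      apply ht
      have := sub_mem h h₁
      simpa using this
    · rw [add_sub_cancel_left]
      exact Split.right (self_mem_cl t)
    · rw [add_sub_cancel_left]
      exact Split.right (self_mem_cl t)
  · have hne : ρ₂ - ρ₁ ≠ 0 := sub_ne_zero.mpr fun h' => h h'.symm
    have hmem : ρ₂ - ρ₁ ∈ cl s := sub_mem h₂ h₁
    refine ⟨ρ₁ + (ρ₂ - ρ₁) * t, add_mem (hs' h₁) (mul_mem (hs' hmem) (ht' (self_mem_cl t))), ?_,
      ⟨ρ₂ - ρ₁, hmem, t, self_mem_cl t, by ring⟩,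
      ⟨ρ₂ - ρ₁, hmem, t - 1, sub_mem (self_mem_cl t) (one_mem _), by ring⟩⟩
    intro h
    apply ht
    have h3 := div_mem (sub_mem h h₁) hmem
    rw [add_sub_cancel_left, mul_div_cancel_left₀ _ hne] at h3
    exact h3

theorem isAlgClosed_cl [IsAlgClosed Ω] (s : Ω) : IsAlgClosed (cl s) := by
  apply IsAlgClosed.of_exists_root
  intro p hp hirr
  have hdeg : (p.map (algebraMap (cl s) Ω)).degree ≠ 0 := by
    rw [Polynomial.degree_map]
    exact (Polynomial.degree_pos_of_irreducible hirr).ne'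
  obtain ⟨x, hx⟩ := IsAlgClosed.exists_root _ hdeg
  have hx' : Polynomial.aeval x p = 0 := by
    rw [Polynomial.IsRoot, Polynomial.eval_map_algebraMap] at hx
    exact hx
  have hmem : x ∈ cl s := mem_cl_of_isAlgebraic ⟨p, hp.ne_zero, hx'⟩
  refine ⟨⟨x, hmem⟩, ?_⟩
  apply (algebraMap (cl s) Ω).injective
  rw [map_zero, ← hx']
  exact (Polynomial.aeval_algebraMap_apply Ω (⟨x, hmem⟩ : cl s) p).symm

/-- polynomials over `cl s` of total degree at most two have split values at a common point -/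
theorem exists_split_values [IsAlgClosed Ω] {s t : Ω} (hst : AlgebraicIndependent ℂ ![s, t])
    {ι : Type*} (S : Finset ι) (p : ι → Polynomial (cl s))
    (hdeg : ∑ i ∈ S, (p i).natDegree ≤ 2) :
    ∃ z ∈ cl s ⊔ cl t, z ∉ cl s ∧ ∀ i ∈ S, Split s t (Polynomial.aeval z (p i)) := by
  classical
  have _ := isAlgClosed_cl s
  let R : Multiset (cl s) := ∑ i ∈ S, (p i).roots
  have hR : R.card ≤ 2 := by
    simp only [R]
    rw [Multiset.card_sum]
    exact le_trans (Finset.sum_le_sum fun i _ => Polynomial.card_roots' (p i)) hdeg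
  have hρ : ∃ ρ₁ ρ₂ : cl s, ∀ x ∈ R, x = ρ₁ ∨ x = ρ₂ := by
    rcases Nat.lt_or_ge R.card 1 with h0 | h0
    · have : R = 0 := Multiset.card_eq_zero.mp (by omega)
      exact ⟨0, 0, by rw [this]; simp⟩
    · rcases Nat.lt_or_ge R.card 2 with h1 | h1
      · obtain ⟨a, ha⟩ := Multiset.card_eq_one.mp (by omega : R.card = 1)
        exact ⟨a, a, by rw [ha]; simp⟩
      · obtain ⟨a, b, hab⟩ := Multiset.card_eq_two.mp (by omega : R.card = 2)
        refine ⟨a, b, ?_⟩
        rw [hab]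
        intro x hx
        simpa using hx
  obtain ⟨ρ₁, ρ₂, hρ⟩ := hρ
  obtain ⟨z, hz, hz', h1, h2⟩ := exists_two hst ρ₁.2 ρ₂.2
  refine ⟨z, hz, hz', fun i hi => ?_⟩
  have hle : (p i).roots ≤ R := Finset.single_le_sum (f := fun i => (p i).roots)
    (fun _ _ => zero_le) hi
  have hfac := (IsAlgClosed.splits (p i)).eq_prod_roots
  rw [hfac, map_mul, Polynomial.aeval_C]
  refine (Split.left ((p i).leadingCoeff).2).mul ?_
  rw [map_multiset_prod, Multiset.map_map]
  apply Split.multiset_prod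
  intro x hx
  obtain ⟨r, hr, rfl⟩ := Multiset.mem_map.mp hx
  have hval : (Polynomial.aeval z ∘ fun a : cl s => Polynomial.X - Polynomial.C a) r =
      z - (r : Ω) := by
    simp
  rw [hval]
  rcases hρ r (Multiset.mem_of_le hle hr) with h | h
  · rw [h]; exact h1
  · rw [h]; exact h2

end Pool.Agent.N197.Pln
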