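import Pool.Agent.N197.Pln.Dom
import Pool.Agent.N197.Pln.Split

/-!
# Pencils of lines through a fixed point
-/

namespace Pool.Agent.N197.Pln

open MvPolynomial IntermediateField

/-- the point `v` has multiplicity at least `j` on `f = 0`, for `j ≤ 2` -/
def MultGe (f : MvPolynomial (Fin 3) ℂ) (v : Fin 3 → ℂ) : ℕ → Prop
  | 0 => True
  | 1 => eval v f = 0
  | 2 => eval v f = 0 ∧ ∀ k, eval v (pderiv k f) = 0
  | _ => False

theorem aeval_up {E : Type*} [Field E] [Algebra ℂ E] (f : MvPolynomial (Fin 3) ℂ) (v : Fin 3 → ℂ) :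
    aeval (up v : Fin 3 → E) f = algebraMap ℂ E (eval v f) := by
  have h := aeval_algebraMap_apply E v f
  exact h

theorem natDegree_reflect_le {E : Type*} [Field E] {g : Polynomial E} {d j : ℕ}
    (hg : g.natDegree ≤ d) (h : ∀ i < j, g.coeff i = 0) :
    (Polynomial.reflect d g).natDegree ≤ d - j := by
  rw [Polynomial.natDegree_le_iff_coeff_eq_zero]
  intro k hk
  rw [Polynomial.coeff_reflect]
  by_cases hkd : k ≤ d
  · rw [Polynomial.revAt_le hkd]
    apply h
    omega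
  · rw [Polynomial.revAt_eq_self_of_lt (by omega)]
    exact Polynomial.coeff_eq_zero_of_natDegree_lt (by omega)

theorem natDegree_lineP_of_mult {E : Type*} [Field E] [Algebra ℂ E]
    {f : MvPolynomial (Fin 3) ℂ} {d : ℕ} (hf : f.IsHomogeneous d) {v : Fin 3 → ℂ} {j : ℕ}
    (h : MultGe f v j) (u : Fin 3 → E) : (lineP f u (up v)).natDegree ≤ d - j := by
  rw [← eval_reflect_lineP hf (up v) u]
  apply natDegree_reflect_le (natDegree_lineP_le hf _ _)
  intro i hi
  have h0 : eval v f = 0 → (lineP f (up v) u).coeff 0 = 0 := by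
    intro h'
    rw [coeff_zero_lineP, aeval_up, h', map_zero]
  have h1 : (∀ k, eval v (pderiv k f) = 0) → (lineP f (up v) u).coeff 1 = 0 := by
    intro h'
    rw [coeff_one_lineP]
    apply Finset.sum_eq_zero
    intro k _
    rw [aeval_up, h' k, map_zero, mul_zero]
  match j, h with
  | 0, _ => omega
  | 1, h =>
    interval_cases i
    exact h0 h
  | 2, h =>
    interval_cases i
    · exact h0 h.1
    · exact h1 h.2

theorem exists_basis {v : Fin 3 → ℂ} (hv : v ≠ 0) : ∃ w₀ w₁ : Fin 3 → ℂ, det3 w₀ w₁ v ≠ 0 := by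
  obtain ⟨k, hk⟩ := Function.ne_iff.mp hv
  fin_cases k
  · exact ⟨![0, 1, 0], ![0, 0, 1], by simpa [det3] using hk⟩
  · exact ⟨![0, 0, 1], ![1, 0, 0], by simpa [det3] using hk⟩
  · exact ⟨![1, 0, 0], ![0, 1, 0], by simpa [det3] using hk⟩

theorem pencil {Ω : Type} [Field Ω] [Algebra ℂ Ω] [IsAlgClosed Ω] {s t : Ω}
    (hst : AlgebraicIndependent ℂ ![s, t]) {ι : Type} [Fintype ι]
    {n : ℕ} (hn : n ≠ 0) {f : ι → MvPolynomial (Fin 3) ℂ} {d : ι → ℕ} {a : ι → ZMod n}
    (hf : ∀ i, (f i).IsHomogeneous (d i)) {m : ℕ} (hm : ∑ i, d i * (a i).val = n * m)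
    {v : Fin 3 → ℂ} (hv : v ≠ 0) (S : Finset ι) (hS : ∀ i, i ∉ S → (a i).val = 0) (j : ι → ℕ)
    (hj : ∀ i ∈ S, MultGe (f i) v (j i)) (hdeg : ∑ i ∈ S, (d i - j i) ≤ 2) :
    DominatedByCurves n f a := by
  obtain ⟨w₀, w₁, hdet⟩ := exists_basis hv
  let s' : cl s := ⟨s, self_mem_cl s⟩
  let u : Fin 3 → cl s := fun i => up w₀ i + s' * up w₁ i
  obtain ⟨z, hz, hz', hsplit⟩ := exists_split_values hst S (fun i => lineP (f i) u (up v))
    (le_trans (Finset.sum_le_sum fun i hi => natDegree_lineP_of_mult (hf i) (hj i hi) u) hdeg)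
  have hs : Transcendental ℂ s := ((pair_iff s t).mp hst).1
  have hind := pair_of_cl (self_mem_cl s) hs hz'
  have hval : ∀ i, aeval (fun k => up w₀ k + s * up w₁ k + z * up v k : Fin 3 → Ω) (f i) =
      Polynomial.aeval z (lineP (f i) u (up v)) := by
    intro i
    rw [← Polynomial.eval_map_algebraMap, aeval_map_lineP, eval_lineP]
    rfl
  have hsp : Split s t (∏ i, aeval (fun k => up w₀ k + s * up w₁ k + z * up v k : Fin 3 → Ω) (f i) ^
      (a i).val) := by
    apply Split.prod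
    intro i _
    by_cases hi : i ∈ S
    · rw [hval]
      exact (hsplit i hi).pow _
    · rw [hS i hi, pow_zero]
      exact Split.left (one_mem _)
  obtain ⟨w, hw, hwn⟩ := hsp.root hn
  refine dominated_of_point hst hf ?_ (generic_pencil hdet hind) hm hw hwn
  intro k
  have h1 : cl s ≤ cl s ⊔ cl t := le_sup_left
  refine add_mem (add_mem ?_ (mul_mem (h1 (self_mem_cl s)) ?_)) (mul_mem hz ?_)
  · exact (cl s ⊔ cl t).algebraMap_mem _
  · exact (cl s ⊔ cl t).algebraMap_mem _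
  · exact (cl s ⊔ cl t).algebraMap_mem _

end Pool.Agent.N197.Pln
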