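import Pool.Agent.N197.Pln.Gen
import Pool.Agent.N197.Pln.Pencil
import Pool.Agent.N197.Pln.Meet

/-!
# Moving lines are generic
-/

namespace Pool.Agent.N197.Pln

open MvPolynomial

theorem vanish_plane {E : Type*} [Field E] [Algebra ℂ E] {f : MvPolynomial (Fin 3) ℂ} {d : ℕ}
    (hf : f.IsHomogeneous d) {b τ : Fin 3 → E} (h : lineP f b τ = 0) (x y : E) :
    aeval (fun i => x * b i + y * τ i) f = 0 := by
  by_cases hx : x = 0
  · by_cases hy : y = 0
    · have h1 := aeval_smul hf (0 : E) b
      have h2 : aeval b f = 0 := by rw [← coeff_zero_lineP f b τ, h, Polynomial.coeff_zero]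
      rw [h2, mul_zero] at h1
      rw [← h1, hx, hy]
      congr 2
      funext i
      ring
    · have h1 : lineP f τ b = 0 := by rw [← eval_reflect_lineP hf, h, Polynomial.reflect_zero]
      have h2 : aeval (fun i => τ i + (x / y) * b i) f = 0 := by rw [← eval_lineP, h1, Polynomial.eval_zero]
      have h3 := aeval_smul hf y (fun i => τ i + (x / y) * b i)
      rw [h2, mul_zero] at h3
      rw [← h3]
      congr 2
      funext i
      field_simp
      ring
  · have h2 : aeval (fun i => b i + (y / x) * τ i) f = 0 := by rw [← eval_lineP, h, Polynomial.eval_zero]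
    have h3 := aeval_smul hf x (fun i => b i + (y / x) * τ i)
    rw [h2, mul_zero] at h3
    rw [← h3]
    congr 2
    funext i
    field_simp

variable {Ω : Type*} [Field Ω] [Algebra ℂ Ω]

theorem lineP_eq_zero_of_transcendental {f : MvPolynomial (Fin 3) ℂ} {p q : Fin 3 → ℂ} {z : Ω}
    (hz : Transcendental ℂ z) (h : aeval (fun i => up p i + z * up q i) f = 0) :
    lineP f p q = 0 := by
  by_contra hne
  apply hz
  refine ⟨lineP f p q, hne, ?_⟩
  rw [← Polynomial.eval_map_algebraMap, aeval_map_lineP, eval_lineP]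
  exact h

theorem line_const {c : Fin 3 → Ω} {e : Fin 3 → ℂ} (he : dot c (up e) ≠ 0)
    {F : MvPolynomial (Fin 3) ℂ} (hF : F ≠ 0) (h : ∀ p : Fin 3 → Ω, dot c p = 0 → aeval p F = 0) :
    ∃ l : Fin 3 → ℂ, ∀ i, c i = dot c (up e) * up l i := by
  by_contra hcon
  have hk : ∃ k, ∀ x : ℂ, algebraMap ℂ Ω x ≠ c k / dot c (up e) := by
    by_contra h'
    push Not at h'
    choose l hl using h'
    apply hcon
    refine ⟨l, fun i => ?_⟩
    rw [up, hl i]
    field_simp
  obtain ⟨k, hk⟩ := hk
  let L : (Fin 3 → ℂ) →ₗ[ℂ] Ω :=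
    { toFun := fun q => dot c (up q) / dot c (up e)
      map_add' := by
        intro x y
        simp only [dot, up, Pi.add_apply, map_add]
        ring
      map_smul' := by
        intro r x
        simp only [dot, up, Pi.smul_apply, smul_eq_mul, map_mul, RingHom.id_apply, Algebra.smul_def]
        ring }
  let W : Submodule ℂ (Fin 3 → ℂ) := Submodule.comap L (LinearMap.range (Algebra.linearMap ℂ Ω))
  have hW : W < ⊤ := by
    rw [lt_top_iff_ne_top]
    intro h'
    have h1 : (Pi.single k 1 : Fin 3 → ℂ) ∈ W := by rw [h']; trivial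
    obtain ⟨x, hx⟩ := h1
    apply hk x
    rw [Algebra.linearMap_apply] at hx
    rw [hx]
    show dot c (up (Pi.single k 1)) / dot c (up e) = _
    congr 1
    fin_cases k <;> simp [dot, up]
  obtain ⟨φ, hφ0, hφ⟩ := Submodule.exists_le_ker_of_lt_top W hW
  have hφd : ∀ q, φ q = dot (fun i => φ (Pi.single i 1)) q := by
    intro q
    have h1 : q = q 0 • Pi.single 0 1 + q 1 • Pi.single 1 1 + q 2 • Pi.single 2 1 := by
      funext i
      fin_cases i <;> simp
    conv_lhs => rw [h1]
    rw [map_add, map_add, map_smul, map_smul, map_smul]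
    simp only [dot, smul_eq_mul]
    ring
  obtain ⟨e₁, he₁⟩ : ∃ e₁, φ e₁ ≠ 0 := by
    by_contra h'
    push Not at h'
    exact hφ0 (LinearMap.ext h')
  apply hF
  refine eq_zero_of_vanish (c := fun i => φ (Pi.single i 1)) (e := e₁) (by rwa [← hφd]) ?_
  intro p hp
  rw [← hφd] at hp
  have hpW : p ∉ W := fun h' => hp (hφ h')
  have htr : Transcendental ℂ (-(L p)) := by
    intro halg
    obtain ⟨x, hx⟩ := mem_bot_of_isAlgebraic halg
    apply hpW
    refine ⟨-x, ?_⟩
    rw [Algebra.linearMap_apply, map_neg, hx, neg_neg]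
  have hz := h (fun i => up p i + (-(L p)) * up e i) (by
    have : dot c (fun i => up p i + (-(L p)) * up e i) = dot c (up p) - L p * dot c (up e) := by
      simp only [dot]; ring
    rw [this]
    show dot c (up p) - dot c (up p) / dot c (up e) * dot c (up e) = 0
    field_simp
    ring)
  have h0 := lineP_eq_zero_of_transcendental htr hz
  have h1 := coeff_zero_lineP F p e
  rw [h0, Polynomial.coeff_zero] at h1
  exact h1.symm

/-- a point which is generic on a line over `cl s` is generic, or the line is defined over `ℂ` -/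
theorem generic_or_const {s : Ω} {b τ : Fin 3 → cl s} {e : Fin 3 → ℂ}
    (he : det3 (fun i => (b i : Ω)) (fun i => (τ i : Ω)) (up e) ≠ 0) {z : Ω} (hz : z ∉ cl s) :
    Generic (fun i => (b i : Ω) + z * (τ i : Ω)) ∨
      ∃ l : Fin 3 → ℂ, ∀ i, cr (fun i => (b i : Ω)) (fun i => (τ i : Ω)) i =
        det3 (fun i => (b i : Ω)) (fun i => (τ i : Ω)) (up e) * up l i := by
  by_cases hgen : Generic (fun i => (b i : Ω) + z * (τ i : Ω))
  · exact Or.inl hgen
  right
  unfold Generic at hgen
  push Not at hgen
  obtain ⟨F, m, hF, hF0, hFz⟩ := hgen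
  have hline : lineP F b τ = 0 := by
    by_contra hne
    apply transcendental_cl_iff_notMem.mpr hz
    refine ⟨lineP F b τ, hne, ?_⟩
    rw [← Polynomial.eval_map_algebraMap, aeval_map_lineP, eval_lineP]
    exact hFz
  have hline' : lineP F (fun i => (b i : Ω)) (fun i => (τ i : Ω)) = 0 := by
    have h1 := aeval_map_lineP (E' := Ω) F b τ
    rw [hline, Polynomial.map_zero] at h1
    exact h1.symm
  rw [det3_eq_dot] at he ⊢
  refine line_const he hF0 ?_
  intro p hp
  rw [← det3_eq_dot] at hp he
  set κ := det3 (fun i => (b i : Ω)) (fun i => (τ i : Ω)) (up e) with hκ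
  have hcomb := vanish_plane hF hline' (det3 p (fun i => (τ i : Ω)) (up e))
    (det3 (fun i => (b i : Ω)) p (up e))
  have h1 : (fun i => det3 p (fun i => (τ i : Ω)) (up e) * (b i : Ω) +
      det3 (fun i => (b i : Ω)) p (up e) * (τ i : Ω)) = fun i => κ * p i := by
    funext i
    rw [hκ, cramer3 _ _ _ p i, hp]
    ring
  rw [h1, aeval_smul hF] at hcomb
  rcases mul_eq_zero.mp hcomb with h2 | h2
  · exact absurd h2 (pow_ne_zero _ he)
  · exact h2

/-- a curve containing a line has a singular point -/
theorem exists_singular_of_line {f : MvPolynomial (Fin 3) ℂ} {d : ℕ} (hd : 2 ≤ d)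
    (hf : f.IsHomogeneous d) {l e : Fin 3 → ℂ} (hl : dot l e ≠ 0)
    (hvan : ∀ p, dot l p = 0 → eval p f = 0) : ∃ v : Fin 3 → ℂ, v ≠ 0 ∧ MultGe f v 2 := by
  have hg : (∑ k, C (e k) * pderiv k f).IsHomogeneous (d - 1) := by
    apply IsHomogeneous.sum
    intro k _
    exact hf.pderiv.C_mul _
  obtain ⟨p, hp, hpg, hpl⟩ := exists_common_zero (by omega) one_pos hg (linF_homogeneous l)
  rw [eval_linF] at hpl
  rw [map_sum] at hpg
  simp only [map_mul, eval_C] at hpg
  refine ⟨p, hp, hvan p hpl, ?_⟩
  have hdir : ∀ h : Fin 3 → ℂ, dot l h = 0 → ∑ k, h k * eval p (pderiv k f) = 0 := by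
    intro h hh
    have h0 : lineP f p h = 0 := by
      apply Polynomial.funext
      intro x
      rw [eval_lineP, Polynomial.eval_zero]
      show eval _ f = 0
      apply hvan
      have : dot l (fun i => p i + x * h i) = dot l p + x * dot l h := by simp only [dot]; ring
      rw [this, hpl, hh]
      ring
    have h1 := coeff_one_lineP f p h
    rw [h0, Polynomial.coeff_zero] at h1
    exact h1.symm
  intro k
  have hx := hdir (fun i => (Pi.single k 1 : Fin 3 → ℂ) i - (dot l (Pi.single k 1) / dot l e) * e i) (by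
    have : dot l (fun i => (Pi.single k 1 : Fin 3 → ℂ) i - (dot l (Pi.single k 1) / dot l e) * e i) =
      dot l (Pi.single k 1) - (dot l (Pi.single k 1) / dot l e) * dot l e := by simp only [dot]; ring
    rw [this]
    field_simp
    ring)
  simp only [sub_mul, Finset.sum_sub_distrib] at hx
  simp only [mul_assoc, ← Finset.mul_sum, hpg, mul_zero, sub_zero] at hx
  simpa [Pi.single_apply] using hx

end Pool.Agent.N197.Pln
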