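import Pool.Agent.N197.Pln.Quartic

/-!
# Abelian covers of the plane with `p_g = 0`
-/

namespace Pool.Agent.N197.Pln

open MvPolynomial IntermediateField

theorem exists_field : ∃ (Ω : Type) (_ : Field Ω) (_ : Algebra ℂ Ω) (_ : IsAlgClosed Ω) (s t : Ω),
    AlgebraicIndependent ℂ ![s, t] := by
  let φ : MvPolynomial (Fin 2) ℂ →ₐ[ℂ] AlgebraicClosure (FractionRing (MvPolynomial (Fin 2) ℂ)) :=
    (IsScalarTower.toAlgHom ℂ (FractionRing (MvPolynomial (Fin 2) ℂ))
      (AlgebraicClosure (FractionRing (MvPolynomial (Fin 2) ℂ)))).comp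
    (IsScalarTower.toAlgHom ℂ (MvPolynomial (Fin 2) ℂ) (FractionRing (MvPolynomial (Fin 2) ℂ)))
  have hφ : Function.Injective φ := by
    intro x y hxy
    have h1 := (algebraMap (FractionRing (MvPolynomial (Fin 2) ℂ))
      (AlgebraicClosure (FractionRing (MvPolynomial (Fin 2) ℂ)))).injective hxy
    exact IsFractionRing.injective (MvPolynomial (Fin 2) ℂ)
      (FractionRing (MvPolynomial (Fin 2) ℂ)) h1
  have h := (MvPolynomial.algebraicIndependent_X (Fin 2) ℂ).map' hφ
  have h2 : AlgebraicIndependent ℂ ![φ (X 0), φ (X 1)] := by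
    have h3 : (φ ∘ X : Fin 2 → _) = ![φ (X 0), φ (X 1)] := by
      funext i
      fin_cases i <;> rfl
    rw [← h3]
    exact h
  exact ⟨AlgebraicClosure (FractionRing (MvPolynomial (Fin 2) ℂ)), inferInstance, inferInstance,
    inferInstance, φ (X 0), φ (X 1), h2⟩

theorem lineDegree_add_neg {ι : Type} [Fintype ι] {n : ℕ} [NeZero n] (d : ι → ℕ) (a : ι → ZMod n) :
    lineDegree n d a + lineDegree n d (fun i => -(a i)) =
      ((∑ i ∈ Finset.univ.filter (fun i => a i ≠ 0), d i : ℕ) : ℚ) := by
  have hn : (n : ℚ) ≠ 0 := Nat.cast_ne_zero.mpr (NeZero.ne n)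
  unfold lineDegree
  rw [← Finset.sum_add_distrib, Finset.sum_filter, Nat.cast_sum]
  apply Finset.sum_congr rfl
  intro i _
  rw [ZMod.neg_val]
  by_cases h : a i = 0
  · simp [h]
  · rw [if_neg h, if_pos h, Nat.cast_sub (ZMod.val_lt (a i)).le]
    field_simp
    ring

theorem sum_val {ι : Type} [Fintype ι] {n : ℕ} [NeZero n] {d : ι → ℕ} {a : ι → ZMod n}
    (h : ∑ i, d i • a i = 0) : ∃ m, ∑ i, d i * (a i).val = n * m := by
  have h1 : ((∑ i, d i * (a i).val : ℕ) : ZMod n) = 0 := by
    rw [← h, Nat.cast_sum]
    apply Finset.sum_congr rfl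
    intro i _
    rw [Nat.cast_mul, ZMod.natCast_zmod_val, nsmul_eq_mul]
  exact (ZMod.natCast_eq_zero_iff _ _).mp h1

theorem sum_sub_ite {ι : Type} {S : Finset ι} {d j : ι → ℕ} (h : ∀ i ∈ S, j i ≤ d i) :
    ∑ i ∈ S, (d i - j i) + ∑ i ∈ S, j i = ∑ i ∈ S, d i := by
  rw [← Finset.sum_add_distrib]
  apply Finset.sum_congr rfl
  intro i hi
  exact Nat.sub_add_cancel (h i hi)

theorem dominated {ι : Type} [Fintype ι] {n : ℕ} [NeZero n] {f : ι → MvPolynomial (Fin 3) ℂ}
    {d : ι → ℕ} (hf : ∀ i, IsPlaneCurve (f i) (d i)) {a : ι → ZMod n} (hsum : ∑ i, d i • a i = 0)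
    (h1 : lineDegree n d a ≤ 2) (h2 : lineDegree n d (fun i => -(a i)) ≤ 2) :
    DominatedByCurves n f a := by
  classical
  obtain ⟨Ω, _, _, _, s, t, hst⟩ := exists_field
  have hn : n ≠ 0 := NeZero.ne n
  obtain ⟨m, hm⟩ := sum_val hsum
  set S : Finset ι := Finset.univ.filter (fun i => a i ≠ 0) with hS
  have hS0 : ∀ i, i ∉ S → (a i).val = 0 := by
    intro i hi
    have : a i = 0 := by
      by_contra h
      exact hi (Finset.mem_filter.mpr ⟨Finset.mem_univ _, h⟩)
    rw [this, ZMod.val_zero]
  have hhom : ∀ i, (f i).IsHomogeneous (d i) := fun i => (hf i).homogeneous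
  have hD : ∑ i ∈ S, d i ≤ 4 := by
    have h3 := lineDegree_add_neg d a
    rw [← hS] at h3
    have h4 : ((∑ i ∈ S, d i : ℕ) : ℚ) ≤ 4 := by
      rw [← h3]; linarith
    exact_mod_cast h4
  -- the case of a common point of two curves
  by_cases htwo : ∃ i₀ ∈ S, ∃ i₁ ∈ S, i₀ ≠ i₁
  · obtain ⟨i₀, hi₀, i₁, hi₁, hne⟩ := htwo
    obtain ⟨v, hv, hv₀, hv₁⟩ := exists_common_zero (hf i₀).pos (hf i₁).pos (hhom i₀) (hhom i₁)
    refine pencil hst hn hhom hm hv S hS0
      (fun i => (if i = i₀ then 1 else 0) + (if i = i₁ then 1 else 0)) ?_ ?_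
    · intro i _
      by_cases h : i = i₀
      · subst h
        simpa [hne, MultGe] using hv₀
      · by_cases h' : i = i₁
        · subst h'
          simpa [h, MultGe] using hv₁
        · simp [h, h', MultGe]
    · have h3 := sum_sub_ite (S := S) (d := d)
        (j := fun i => (if i = i₀ then 1 else 0) + (if i = i₁ then 1 else 0)) (by
          intro i _
          have := (hf i).pos
          by_cases h : i = i₀
          · subst h
            simp [hne]
            omega
          · simp only [h, if_false]
            split_ifs <;> omega)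
      have h4 : ∑ i ∈ S, ((if i = i₀ then 1 else 0) + (if i = i₁ then 1 else 0)) = 2 := by
        rw [Finset.sum_add_distrib, Finset.sum_ite_eq', Finset.sum_ite_eq', if_pos hi₀, if_pos hi₁]
      omega
  · push Not at htwo
    by_cases hne : S.Nonempty
    · obtain ⟨i₀, hi₀⟩ := hne
      have hSi : S = {i₀} := by
        ext i
        rw [Finset.mem_singleton]
        constructor
        · intro hi
          exact htwo i hi i₀ hi₀
        · rintro rfl
          exact hi₀
      rw [hSi, Finset.sum_singleton] at hD
      by_cases hd3 : d i₀ ≤ 3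
      · obtain ⟨v, hv, hv₀, -⟩ := exists_common_zero (hf i₀).pos (hf i₀).pos (hhom i₀) (hhom i₀)
        refine pencil hst hn hhom hm hv S hS0 (fun _ => 1) ?_ ?_
        · intro i hi
          rw [hSi, Finset.mem_singleton] at hi
          subst hi
          exact hv₀
        · rw [hSi, Finset.sum_singleton]
          omega
      · have hd4 : d i₀ = 4 := by omega
        by_cases hsing : ∃ v : Fin 3 → ℂ, v ≠ 0 ∧ MultGe (f i₀) v 2
        · obtain ⟨v, hv, hv₀⟩ := hsing
          refine pencil hst hn hhom hm hv S hS0 (fun _ => 2) ?_ ?_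
          · intro i hi
            rw [hSi, Finset.mem_singleton] at hi
            subst hi
            exact hv₀
          · rw [hSi, Finset.sum_singleton]
            omega
        · push Not at hsing
          obtain ⟨P, hP, hgen, z, hz, x, hx, hval⟩ :=
            quartic hst (by rw [← hd4]; exact hhom i₀) (hf i₀).ne_zero hsing
          have hhalf : n = 2 * (a i₀).val := by
            have hn' : (0 : ℚ) < n := Nat.cast_pos.mpr (Nat.pos_of_ne_zero hn)
            have e1 : lineDegree n d a = 4 * ((a i₀).val : ℚ) / n := by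
              unfold lineDegree
              rw [Finset.sum_eq_single i₀]
              · rw [hd4]; norm_num
              · intro i _ hi
                have : i ∉ S := by rw [hSi, Finset.mem_singleton]; exact hi
                rw [hS0 i this]
                simp
              · intro h; exact absurd (Finset.mem_univ _) h
            have e2 := lineDegree_add_neg d a
            rw [← hS, hSi, Finset.sum_singleton, hd4] at e2
            have e3 : (4 : ℚ) * ((a i₀).val : ℚ) / n = 2 := by
              have : ((4 : ℕ) : ℚ) = 4 := by norm_num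
              rw [this] at e2
              linarith
            rw [div_eq_iff hn'.ne'] at e3
            have e4 : (4 : ℕ) * (a i₀).val = 2 * n := by exact_mod_cast e3
            omega
          obtain ⟨w, hw, hwn⟩ := (hx.pow (a i₀).val).root hn
          refine dominated_of_point hst hhom hP hgen hm (w := z * w) (mul_mem hz hw) ?_
          rw [Finset.prod_eq_single i₀]
          · rw [mul_pow, hwn, hval, mul_pow, ← pow_mul, ← hhalf]
          · intro i _ hi
            have : i ∉ S := by rw [hSi, Finset.mem_singleton]; exact hi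
            rw [hS0 i this, pow_zero]
          · intro h; exact absurd (Finset.mem_univ _) h
    · rw [Finset.not_nonempty_iff_eq_empty] at hne
      refine pencil hst hn hhom hm (v := ![1, 0, 0]) ?_ S hS0 (fun _ => 0) ?_ ?_
      · intro h
        have := congrFun h 0
        simp at this
      · intro i _
        trivial
      · rw [hne]
        simp

/-- every character piece of an abelian cover of the plane with `p_g = 0` is dominated by a product of
curves -/
theorem abelian_plane_covers {ι : Type} [Fintype ι] {f : ι → MvPolynomial (Fin 3) ℂ} {d : ι → ℕ}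
    (hf : ∀ i, IsPlaneCurve (f i) (d i)) {G : Type} [AddCommGroup G] (g : ι → G)
    (hg : ∑ i, d i • g i = 0)
    (hpg : ∀ (n : ℕ) [NeZero n] (χ : G →+ ZMod n), lineDegree n d (fun i => χ (g i)) ≤ 2)
    (n : ℕ) [NeZero n] (χ : G →+ ZMod n) : DominatedByCurves n f (fun i => χ (g i)) := by
  refine dominated hf ?_ (hpg n χ) ?_
  · have h := congrArg χ hg
    rw [map_sum, map_zero] at h
    simpa only [map_nsmul] using h
  · exact hpg n (-χ)

end Pool.Agent.N197.Pln
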