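import Pool.Agent.N197.Pln.Defs

/-!
# Abelian covers of the product of two projective lines: definitions

* `IsBidegreeCurve f d e`: the polynomial `f ≠ 0` in two variables has degree at most `d` in the first
  and at most `e` in the second variable; it defines a curve of bidegree `(d, e)` on the product of two
  projective lines. The line `x = ∞` is a component of this curve, with the multiplicity
  `d - deg_x f`, and `y = ∞` with the multiplicity `e - deg_y f`; for example `f = 1` and
  `(d, e) = (1, 0)` for the line `x = ∞`.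
* `AffineDominatedByCurves n f a`: there is a dominant rational map from the product of two curves to the
  surface `z ^ n = ∏ i, f i (x, y) ^ a i`.
-/

namespace Pool.Agent.N197.Pln

open MvPolynomial

/-- `f ≠ 0` is a polynomial of bidegree at most `(d, e)` in two variables -/
structure IsBidegreeCurve (f : MvPolynomial (Fin 2) ℂ) (d e : ℕ) : Prop where
  ne_zero : f ≠ 0
  fst_le : f.degreeOf 0 ≤ d
  snd_le : f.degreeOf 1 ≤ e

/-- a product of two curves dominates the surface `z ^ n = ∏ i, f i (x, y) ^ a i` -/
def AffineDominatedByCurves {ι : Type} [Fintype ι] (n : ℕ) (f : ι → MvPolynomial (Fin 2) ℂ)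
    (a : ι → ZMod n) : Prop :=
  ∃ (Ω : Type) (_ : Field Ω) (_ : Algebra ℂ Ω) (K₁ K₂ : IntermediateField ℂ Ω),
    IsProductOfCurves K₁ K₂ ∧ ∃ x ∈ K₁ ⊔ K₂, ∃ y ∈ K₁ ⊔ K₂, ∃ z ∈ K₁ ⊔ K₂,
      AlgebraicIndependent ℂ ![x, y] ∧ z ^ n = ∏ i, aeval ![x, y] (f i) ^ (a i).val

end Pool.Agent.N197.Pln
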