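import Pool.Agent.N197.Pln.QDefs
import Pool.Agent.N197.Pln.Main

/-!
# Fibrations with at most three branch points in the fibres
-/

namespace Pool.Agent.N197.Pln

open MvPolynomial IntermediateField

section

variable {Ω : Type} [Field Ω] [Algebra ℂ Ω]

/-- `f (X, s)` -/
noncomputable def fibreP (s : Ω) (f : MvPolynomial (Fin 2) ℂ) : Polynomial (cl s) :=
  aeval ![Polynomial.X, Polynomial.C ⟨s, self_mem_cl s⟩] f

theorem aeval_fibreP (s z : Ω) (f : MvPolynomial (Fin 2) ℂ) :
    Polynomial.aeval z (fibreP s f) = aeval ![z, s] f := by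
  unfold fibreP
  have h1 := aeval_unique (((Polynomial.aeval z : Polynomial (cl s) →ₐ[cl s] Ω).restrictScalars
    ℂ).comp (aeval (R := ℂ) ![Polynomial.X, Polynomial.C (⟨s, self_mem_cl s⟩ : cl s)]))
  have h2 := DFunLike.congr_fun h1 f
  simp only [AlgHom.comp_apply, AlgHom.restrictScalars_apply] at h2
  rw [h2]
  congr 2
  funext i
  fin_cases i
  · simp
  · simp

theorem natDegree_fibreP_le (s : Ω) {f : MvPolynomial (Fin 2) ℂ} {d : ℕ} (h : f.degreeOf 0 ≤ d) :
    (fibreP s f).natDegree ≤ d := by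
  unfold fibreP
  rw [aeval_def, eval₂_eq]
  apply Polynomial.natDegree_sum_le_of_forall_le
  intro m hm
  have hm0 : m 0 ≤ d := le_trans (monomial_le_degreeOf 0 hm) h
  have hprod : ∏ i ∈ m.support, (![Polynomial.X, Polynomial.C (⟨s, self_mem_cl s⟩ : cl s)] :
      Fin 2 → Polynomial (cl s)) i ^ m i =
      Polynomial.X ^ m 0 * Polynomial.C (⟨s, self_mem_cl s⟩ : cl s) ^ m 1 := by
    rw [Finset.prod_subset (Finset.subset_univ m.support), Fin.prod_univ_two]
    · rfl
    · intro i _ hi
      rw [Finsupp.notMem_support_iff.mp hi, pow_zero]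
  rw [hprod]
  refine le_trans (Polynomial.natDegree_mul_le) ?_
  have h1 : ((algebraMap ℂ (Polynomial (cl s))) (coeff m f)).natDegree = 0 := by
    rw [Polynomial.algebraMap_apply]
    exact Polynomial.natDegree_C _
  rw [h1, zero_add]
  refine le_trans (Polynomial.natDegree_mul_le) ?_
  have h2 : (Polynomial.C (⟨s, self_mem_cl s⟩ : cl s) ^ m 1).natDegree = 0 := by
    rw [← Polynomial.C_pow]
    exact Polynomial.natDegree_C _
  rw [h2, add_zero, Polynomial.natDegree_X_pow]
  exact hm0

/-- polynomials over `cl s` of total degree at most three have split values, up to powers of `z` -/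
theorem exists_split_values_three [IsAlgClosed Ω] {s t : Ω} (hst : AlgebraicIndependent ℂ ![s, t])
    {ι : Type} (S : Finset ι) (p : ι → Polynomial (cl s)) (d : ι → ℕ)
    (hd : ∀ i ∈ S, (p i).natDegree ≤ d i) (hdeg : ∑ i ∈ S, d i ≤ 3) :
    ∃ x ∈ cl s ⊔ cl t, x ∉ cl s ∧ ∃ z ∈ cl s ⊔ cl t, z ≠ 0 ∧ ∀ i ∈ S, ∃ c, Split s t c ∧
      Polynomial.aeval x (p i) = z ^ d i * c := by
  classical
  have _ := isAlgClosed_cl s
  have hsum : ∑ i ∈ S, (p i).natDegree ≤ ∑ i ∈ S, d i := Finset.sum_le_sum hd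
  by_cases h2 : ∑ i ∈ S, (p i).natDegree ≤ 2
  · obtain ⟨z, hz, hz', h⟩ := exists_split_values hst S p h2
    exact ⟨z, hz, hz', 1, one_mem _, one_ne_zero, fun i hi => ⟨_, h i hi, by rw [one_pow, one_mul]⟩⟩
  · have heq : ∀ i ∈ S, (p i).natDegree = d i := by
      apply (Finset.sum_eq_sum_iff_of_le hd).mp
      omega
    obtain ⟨i₀, hi₀, hpos⟩ : ∃ i ∈ S, 0 < (p i).natDegree := by
      by_contra h
      push Not at h
      have : ∑ i ∈ S, (p i).natDegree = 0 := Finset.sum_eq_zero fun i hi => by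
        have := h i hi
        omega
      omega
    obtain ⟨ρ, hρ⟩ := IsAlgClosed.exists_root (p i₀) (by
      intro h
      rw [Polynomial.natDegree_eq_of_degree_eq_some h] at hpos
      exact lt_irrefl _ hpos)
    let g : ι → Polynomial (cl s) := fun i => Polynomial.reflect (d i) (Polynomial.taylor ρ (p i))
    have hg : ∀ i ∈ S, (g i).natDegree ≤ d i - if i = i₀ then 1 else 0 := by
      intro i hi
      apply natDegree_reflect_le
      · rw [Polynomial.natDegree_taylor]
        exact hd i hi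
      · intro j hj
        by_cases h : i = i₀
        · rw [if_pos h] at hj
          have hj0 : j = 0 := by omega
          rw [hj0, h, Polynomial.taylor_coeff_zero]
          exact hρ
        · rw [if_neg h] at hj
          omega
    have hgsum : ∑ i ∈ S, (g i).natDegree ≤ 2 := by
      refine le_trans (Finset.sum_le_sum hg) ?_
      have h3 := sum_sub_ite (S := S) (d := d) (j := fun i => if i = i₀ then 1 else 0) (by
        intro i hi
        by_cases h : i = i₀
        · subst h
          rw [if_pos rfl, ← heq i hi]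
          exact hpos
        · rw [if_neg h]
          exact Nat.zero_le _)
      rw [Finset.sum_ite_eq', if_pos hi₀] at h3
      omega
    obtain ⟨z, hz, hz', h⟩ := exists_split_values hst S g hgsum
    have hz0 : z ≠ 0 := by
      rintro rfl
      exact hz' (zero_mem _)
    have hle : cl s ≤ cl s ⊔ cl t := le_sup_left
    refine ⟨(ρ : Ω) + z⁻¹, add_mem (hle ρ.2) (inv_mem hz), ?_, z⁻¹, inv_mem hz, inv_ne_zero hz0, ?_⟩
    · intro hmem
      apply hz'
      have h3 := inv_mem (sub_mem hmem ρ.2)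
      rwa [add_sub_cancel_left, inv_inv] at h3
    · intro i hi
      refine ⟨_, h i hi, ?_⟩
      let _ : Invertible z⁻¹ := invertibleOfNonzero (inv_ne_zero hz0)
      have h3 := Polynomial.eval₂_reflect_mul_pow (algebraMap (cl s) Ω) z⁻¹ (d i)
        (Polynomial.taylor ρ (p i)) (by rw [Polynomial.natDegree_taylor]; exact hd i hi)
      rw [invOf_eq_inv, inv_inv] at h3
      have h4 : Polynomial.eval₂ (algebraMap (cl s) Ω) z⁻¹ (Polynomial.taylor ρ (p i)) =
          Polynomial.aeval ((ρ : Ω) + z⁻¹) (p i) := by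
        rw [Polynomial.taylor_apply, Polynomial.eval₂_comp, Polynomial.aeval_def]
        congr 1
        simp
        ring
      rw [← h4, ← h3]
      exact mul_comm _ _

theorem fibre_three {ι : Type} [Fintype ι] {n : ℕ} [NeZero n] {f : ι → MvPolynomial (Fin 2) ℂ}
    {d : ι → ℕ} (hf : ∀ i, (f i).degreeOf 0 ≤ d i) {a : ι → ZMod n} (hsum : ∑ i, d i • a i = 0)
    (hdeg : ∑ i ∈ Finset.univ.filter (fun i => a i ≠ 0), d i ≤ 3) :
    AffineDominatedByCurves n f a := by
  classical
  obtain ⟨Ω, _, _, _, s, t, hst⟩ := exists_field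
  have hn : n ≠ 0 := NeZero.ne n
  obtain ⟨m, hm⟩ := sum_val hsum
  set S : Finset ι := Finset.univ.filter (fun i => a i ≠ 0) with hS
  have hS0 : ∀ i, i ∉ S → (a i).val = 0 := by
    intro i hi
    have : a i = 0 := by
      by_contra h
      exact hi (Finset.mem_filter.mpr ⟨Finset.mem_univ _, h⟩)
    rw [this, ZMod.val_zero]
  obtain ⟨x, hx, hx', z, hz, hz0, h⟩ := exists_split_values_three hst S (fun i => fibreP s (f i)) d
    (fun i _ => natDegree_fibreP_le s (hf i)) hdeg
  have hval : ∀ i, ∃ c, Split s t c ∧ aeval ![x, s] (f i) ^ (a i).val =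
      z ^ (d i * (a i).val) * c := by
    intro i
    by_cases hi : i ∈ S
    · obtain ⟨c, hc, hc'⟩ := h i hi
      rw [aeval_fibreP] at hc'
      exact ⟨c ^ (a i).val, hc.pow _, by rw [hc', mul_pow, ← pow_mul]⟩
    · refine ⟨1, Split.left (one_mem _), ?_⟩
      rw [hS0 i hi, mul_zero, pow_zero, pow_zero, mul_one]
  choose c hc hc' using hval
  obtain ⟨w, hw, hwn⟩ := (Split.prod Finset.univ c fun i _ => hc i).root hn
  have hs : Transcendental ℂ s := ((pair_iff s t).mp hst).1
  have hind := pair_of_cl (self_mem_cl s) hs hx'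
  have hsmem : s ∈ cl s ⊔ cl t := (le_sup_left : cl s ≤ cl s ⊔ cl t) (self_mem_cl s)
  obtain ⟨K₁, K₂, hK, h1, h2, h3⟩ := exists_curves hst hx hsmem (mul_mem (pow_mem hz m) hw)
  refine ⟨Ω, inferInstance, inferInstance, K₁, K₂, hK, x, h1, s, h2, z ^ m * w, h3,
    pair_symm hind, ?_⟩
  simp only [hc', Finset.prod_mul_distrib, Finset.prod_pow_eq_pow_sum]
  rw [mul_pow, hwn, ← pow_mul, hm, mul_comm m n]

end

theorem AffineDominatedByCurves.swap {ι : Type} [Fintype ι] {n : ℕ}
    {f : ι → MvPolynomial (Fin 2) ℂ} {a : ι → ZMod n}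
    (h : AffineDominatedByCurves n (fun i => rename (Equiv.swap (0 : Fin 2) 1) (f i)) a) :
    AffineDominatedByCurves n f a := by
  obtain ⟨Ω, _, _, K₁, K₂, hK, x, hx, y, hy, z, hz, hind, hval⟩ := h
  refine ⟨Ω, inferInstance, inferInstance, K₁, K₂, hK, y, hy, x, hx, z, hz, pair_symm hind, ?_⟩
  rw [hval]
  apply Finset.prod_congr rfl
  intro i _
  congr 1
  rw [aeval_rename]
  congr 2
  funext j
  fin_cases j <;> simp

end Pool.Agent.N197.Pln
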