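import Pool.Agent.N197.Pln.QFibre

/-!
# Abelian covers of the product of two projective lines with `H² (X, O_X) = 0`
-/

namespace Pool.Agent.N197.Pln

open MvPolynomial IntermediateField

section

variable {ι : Type} [Fintype ι] {n : ℕ} [NeZero n]

theorem lineDegree_add_le (d : ι → ℕ) (a b : ι → ZMod n) :
    lineDegree n d (fun i => a i + b i) ≤ lineDegree n d a + lineDegree n d b := by
  have hn : (0 : ℚ) < n := Nat.cast_pos.mpr (Nat.pos_of_ne_zero (NeZero.ne n))
  unfold lineDegree
  rw [← Finset.sum_add_distrib]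
  apply Finset.sum_le_sum
  intro i _
  rw [← add_div, ← mul_add]
  apply div_le_div_of_nonneg_right _ hn.le
  apply mul_le_mul_of_nonneg_left _ (Nat.cast_nonneg _)
  exact_mod_cast ZMod.val_add_le (a i) (b i)

theorem no_definite {d e : ι → ℕ} {a : ι → ZMod n}
    (hcond : ∀ k : ℕ, lineDegree n d (fun i => k • a i) ≤ 1 ∨ lineDegree n e (fun i => k • a i) ≤ 1)
    (hcond' : ∀ k : ℕ, lineDegree n d (fun i => -(k • a i)) ≤ 1 ∨
      lineDegree n e (fun i => -(k • a i)) ≤ 1)
    (h1 : lineDegree n d a ≤ 1) (h2 : lineDegree n e (fun i => -(a i)) ≤ 1)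
    (hd : 3 ≤ lineDegree n d (fun i => -(a i))) (he : 3 ≤ lineDegree n e a) : False := by
  have hP : ∀ k : ℕ, lineDegree n d (fun i => (k + 1) • a i) ≤ 1 ∧
      lineDegree n e (fun i => -((k + 1) • a i)) ≤ 1 := by
    intro k
    induction k with
    | zero => simpa using ⟨h1, h2⟩
    | succ k ih =>
      obtain ⟨ih1, ih2⟩ := ih
      have e1 := lineDegree_add_le e (fun i => (k + 1 + 1) • a i) (fun i => -((k + 1) • a i))
      have e2 : (fun i => (k + 1 + 1) • a i + -((k + 1) • a i)) = a := by
        funext i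
        rw [succ_nsmul (a i) (k + 1)]
        abel
      rw [e2] at e1
      have e3 := lineDegree_add_le d (fun i => -((k + 1 + 1) • a i)) (fun i => (k + 1) • a i)
      have e4 : (fun i => -((k + 1 + 1) • a i) + (k + 1) • a i) = fun i => -(a i) := by
        funext i
        rw [succ_nsmul (a i) (k + 1)]
        abel
      rw [e4] at e3
      constructor
      · rcases hcond (k + 1 + 1) with h | h
        · exact h
        · linarith
      · rcases hcond' (k + 1 + 1) with h | h
        · linarith
        · exact h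
  have h3 := (hP (2 * n - 2)).1
  have h4 : (fun i => (2 * n - 2 + 1) • a i) = fun i => -(a i) := by
    funext i
    have hn : 0 < n := Nat.pos_of_ne_zero (NeZero.ne n)
    have h5 : (2 * n - 2 + 1) • a i + a i = 0 := by
      have h6 : (2 * n - 2 + 1) + 1 = 2 * n := by omega
      rw [← succ_nsmul, h6, nsmul_eq_mul, Nat.cast_mul, ZMod.natCast_self]
      ring
    exact eq_neg_of_add_eq_zero_left h5
  rw [h4] at h3
  linarith

/-- the character meets the fibres of one of the two projections in at most three points -/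
theorem degree_le_three {d e : ι → ℕ} {a : ι → ZMod n}
    (hcond : ∀ k : ℕ, lineDegree n d (fun i => k • a i) ≤ 1 ∨ lineDegree n e (fun i => k • a i) ≤ 1)
    (hcond' : ∀ k : ℕ, lineDegree n d (fun i => -(k • a i)) ≤ 1 ∨
      lineDegree n e (fun i => -(k • a i)) ≤ 1) :
    ∑ i ∈ Finset.univ.filter (fun i => a i ≠ 0), d i ≤ 3 ∨
      ∑ i ∈ Finset.univ.filter (fun i => a i ≠ 0), e i ≤ 3 := by
  by_contra hcon
  push Not at hcon
  obtain ⟨hA, hB⟩ := hcon
  have hA' : (4 : ℚ) ≤ ((∑ i ∈ Finset.univ.filter (fun i => a i ≠ 0), d i : ℕ) : ℚ) := by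
    exact_mod_cast hA
  have hB' : (4 : ℚ) ≤ ((∑ i ∈ Finset.univ.filter (fun i => a i ≠ 0), e i : ℕ) : ℚ) := by
    exact_mod_cast hB
  have e1 := lineDegree_add_neg d a
  have e2 := lineDegree_add_neg e a
  have c1 := hcond 1
  have c2 := hcond' 1
  simp only [one_smul] at c1 c2
  rcases c1 with c1 | c1
  · rcases c2 with c2 | c2
    · linarith
    · exact no_definite hcond hcond' c1 c2 (by linarith) (by linarith)
  · rcases c2 with c2 | c2
    · exact no_definite (d := e) (e := d) (fun k => (hcond k).symm) (fun k => (hcond' k).symm) c1 c2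
        (by linarith) (by linarith)
    · linarith

theorem affine_dominated {f : ι → MvPolynomial (Fin 2) ℂ} {d e : ι → ℕ}
    (hf : ∀ i, IsBidegreeCurve (f i) (d i) (e i)) {a : ι → ZMod n}
    (hd : ∑ i, d i • a i = 0) (he : ∑ i, e i • a i = 0)
    (hcond : ∀ k : ℕ, lineDegree n d (fun i => k • a i) ≤ 1 ∨ lineDegree n e (fun i => k • a i) ≤ 1)
    (hcond' : ∀ k : ℕ, lineDegree n d (fun i => -(k • a i)) ≤ 1 ∨
      lineDegree n e (fun i => -(k • a i)) ≤ 1) : AffineDominatedByCurves n f a := by
  rcases degree_le_three hcond hcond' with h | h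
  · exact fibre_three (fun i => (hf i).fst_le) hd h
  · apply AffineDominatedByCurves.swap
    refine fibre_three (d := e) ?_ he h
    intro i
    have h1 := degreeOf_rename_of_injective (p := f i) (Equiv.swap (0 : Fin 2) 1).injective 1
    rw [Equiv.swap_apply_right] at h1
    rw [h1]
    exact (hf i).snd_le

end

/-- every cyclic quotient of an abelian cover of the product of two projective lines with
`H² (X, O_X) = 0` is dominated by a product of curves -/
theorem abelian_quadric_covers {ι : Type} [Fintype ι] {f : ι → MvPolynomial (Fin 2) ℂ}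
    {d e : ι → ℕ} (hf : ∀ i, IsBidegreeCurve (f i) (d i) (e i)) {G : Type} [AddCommGroup G]
    (g : ι → G) (hd : ∑ i, d i • g i = 0) (he : ∑ i, e i • g i = 0)
    (hpg : ∀ (n : ℕ) [NeZero n] (χ : G →+ ZMod n), lineDegree n d (fun i => χ (g i)) ≤ 1 ∨
      lineDegree n e (fun i => χ (g i)) ≤ 1)
    (n : ℕ) [NeZero n] (χ : G →+ ZMod n) : AffineDominatedByCurves n f (fun i => χ (g i)) := by
  refine affine_dominated hf ?_ ?_ ?_ ?_
  · have h := congrArg χ hd
    rw [map_sum, map_zero] at h
    simpa only [map_nsmul] using h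
  · have h := congrArg χ he
    rw [map_sum, map_zero] at h
    simpa only [map_nsmul] using h
  · intro k
    exact hpg n (k • χ)
  · intro k
    exact hpg n (-(k • χ))

end Pool.Agent.N197.Pln
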