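import Pool.Agent.N197.Pln.LineGen

/-!
# Tangent lines of smooth quartic curves
-/

namespace Pool.Agent.N197.Pln

open MvPolynomial IntermediateField

section

variable {Ω : Type*} [Field Ω] [Algebra ℂ Ω]

theorem up_mul_add (l w₀ w₁ e : Fin 3 → ℂ) (s y : Ω) :
    dot (fun i => up w₀ i + s * up w₁ i + y * up e i) (up l) =
      algebraMap ℂ Ω (dot l w₀) + s * algebraMap ℂ Ω (dot l w₁) + y * algebraMap ℂ Ω (dot l e) := by
  simp only [dot, up, map_add, map_mul]
  ring

theorem dot_cramer (l w₀ w₁ e p : Fin 3 → ℂ) : det3 w₀ w₁ e * dot l p =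
    det3 p w₁ e * dot l w₀ + det3 w₀ p e * dot l w₁ + det3 w₀ w₁ p * dot l e := by
  have h0 := cramer3 w₀ w₁ e p 0
  have h1 := cramer3 w₀ w₁ e p 1
  have h2 := cramer3 w₀ w₁ e p 2
  simp only [dot]
  linear_combination l 0 * h0 + l 1 * h1 + l 2 * h2

/-- if the generic point of a curve lies on a line, then the curve contains the line -/
theorem vanish_of_generic_point {f : MvPolynomial (Fin 3) ℂ} {d : ℕ} (hf : f.IsHomogeneous d)
    {w₀ w₁ e l : Fin 3 → ℂ} (hdet : det3 w₀ w₁ e ≠ 0) (hl : l ≠ 0) {s y : Ω}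
    (hs : Transcendental ℂ s)
    (hb : aeval (fun i => up w₀ i + s * up w₁ i + y * up e i) f = 0)
    (hlb : dot (fun i => up w₀ i + s * up w₁ i + y * up e i) (up l) = 0) :
    dot l e ≠ 0 ∧ ∀ p, dot l p = 0 → eval p f = 0 := by
  rw [up_mul_add] at hlb
  have hle : dot l e ≠ 0 := by
    intro h
    rw [h, map_zero, mul_zero, add_zero] at hlb
    have h1 : dot l w₁ = 0 := by
      by_contra h1
      apply hs
      have h1' : algebraMap ℂ Ω (dot l w₁) ≠ 0 := by
        rw [Ne, FaithfulSMul.algebraMap_eq_zero_iff]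
        exact h1
      have : s = algebraMap ℂ Ω (-(dot l w₀ / dot l w₁)) := by
        rw [map_neg, map_div₀]
        field_simp
        linear_combination hlb
      rw [this]
      exact isAlgebraic_algebraMap _
    rw [h1, map_zero, mul_zero, add_zero, FaithfulSMul.algebraMap_eq_zero_iff] at hlb
    apply hl
    funext k
    have h2 := dot_cramer l w₀ w₁ e (Pi.single k 1)
    rw [h, h1, hlb, mul_zero, mul_zero, mul_zero, add_zero, add_zero] at h2
    rcases mul_eq_zero.mp h2 with h3 | h3
    · exact absurd h3 hdet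
    · have h4 : dot l (Pi.single k 1) = l k := by
        clear h3 h2
        fin_cases k <;> simp [dot]
      rw [← h4, h3]
      rfl
  refine ⟨hle, ?_⟩
  set μ₀ := -(dot l w₀ / dot l e) with hμ₀
  set μ₁ := -(dot l w₁ / dot l e) with hμ₁
  have hle' : algebraMap ℂ Ω (dot l e) ≠ 0 := by
    rw [Ne, FaithfulSMul.algebraMap_eq_zero_iff]
    exact hle
  have hy : y = algebraMap ℂ Ω μ₀ + s * algebraMap ℂ Ω μ₁ := by
    rw [hμ₀, hμ₁, map_neg, map_div₀, map_neg, map_div₀]
    field_simp
    linear_combination hlb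
  have hline : lineP f (fun i => w₀ i + μ₀ * e i) (fun i => w₁ i + μ₁ * e i) = 0 := by
    apply lineP_eq_zero_of_transcendental hs
    rw [← hb]
    congr 2
    funext i
    rw [hy]
    simp only [up, map_add, map_mul]
    ring
  intro p hp
  have h1 := vanish_plane hf hline (det3 p w₁ e / det3 w₀ w₁ e) (det3 w₀ p e / det3 w₀ w₁ e)
  have h2 := dot_cramer l w₀ w₁ e p
  rw [hp, mul_zero] at h2
  have h3 : (fun i => det3 p w₁ e / det3 w₀ w₁ e * (w₀ i + μ₀ * e i) +
      det3 w₀ p e / det3 w₀ w₁ e * (w₁ i + μ₁ * e i)) = p := by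
    funext i
    have h4 := cramer3 w₀ w₁ e p i
    have h5 : det3 w₀ w₁ p = det3 p w₁ e * μ₀ + det3 w₀ p e * μ₁ := by
      rw [hμ₀, hμ₁]
      field_simp
      linear_combination -h2
    rw [h5] at h4
    field_simp
    linear_combination -h4
  rw [h3] at h1
  exact h1

end

variable {Ω : Type} [Field Ω] [Algebra ℂ Ω] [IsAlgClosed Ω]

theorem tangent_split {s t : Ω} (hst : AlgebraicIndependent ℂ ![s, t]) {f : MvPolynomial (Fin 3) ℂ}
    (hf : f.IsHomogeneous 4) {b τ : Fin 3 → cl s} (hb : aeval b f = 0)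
    (hτ : ∑ k, τ k * aeval b (pderiv k f) = 0)
    (hgen : ∀ z : Ω, z ∉ cl s → Generic (fun i => (b i : Ω) + z * (τ i : Ω))) :
    ∃ P : Fin 3 → Ω, (∀ k, P k ∈ cl s ⊔ cl t) ∧ Generic P ∧ ∃ z ∈ cl s ⊔ cl t, ∃ x, Split s t x ∧
      aeval P f = z ^ 2 * x := by
  have h0 : (lineP f b τ).coeff 0 = 0 := by rw [coeff_zero_lineP, hb]
  have h1 : (lineP f b τ).coeff 1 = 0 := by rw [coeff_one_lineP, hτ]
  have hX : lineP f b τ = (lineP f b τ).divX.divX * Polynomial.X ^ 2 := by
    have e1 := Polynomial.divX_mul_X_add (lineP f b τ)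
    have e2 := Polynomial.divX_mul_X_add (lineP f b τ).divX
    rw [Polynomial.coeff_divX, zero_add, h1, map_zero, add_zero] at e2
    rw [h0, map_zero, add_zero] at e1
    conv_lhs => rw [← e1, ← e2]
    ring
  have hdeg : (lineP f b τ).divX.divX.natDegree ≤ 2 := by
    rw [Polynomial.natDegree_divX_eq_natDegree_tsub_one,
      Polynomial.natDegree_divX_eq_natDegree_tsub_one]
    have := natDegree_lineP_le hf b τ
    omega
  obtain ⟨z, hz, hz', hsp⟩ := exists_split_values hst {()} (fun _ => (lineP f b τ).divX.divX)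
    (by simpa using hdeg)
  refine ⟨fun i => (b i : Ω) + z * (τ i : Ω), ?_, hgen z hz', z, hz, _, hsp () (by simp), ?_⟩
  · intro k
    have hle : cl s ≤ cl s ⊔ cl t := le_sup_left
    exact add_mem (hle (b k).2) (mul_mem hz (hle (τ k).2))
  · have e1 : aeval (fun i => (b i : Ω) + z * (τ i : Ω)) f = Polynomial.aeval z (lineP f b τ) := by
      rw [← Polynomial.eval_map_algebraMap, aeval_map_lineP, eval_lineP]
      rfl
    rw [e1]
    conv_lhs => rw [hX]
    rw [map_mul, map_pow, Polynomial.aeval_X]
    ring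

theorem quartic {s t : Ω} (hst : AlgebraicIndependent ℂ ![s, t]) {f : MvPolynomial (Fin 3) ℂ}
    (hf : f.IsHomogeneous 4) (hf0 : f ≠ 0) (hsm : ∀ v : Fin 3 → ℂ, v ≠ 0 → ¬ MultGe f v 2) :
    ∃ P : Fin 3 → Ω, (∀ k, P k ∈ cl s ⊔ cl t) ∧ Generic P ∧ ∃ z ∈ cl s ⊔ cl t, ∃ x, Split s t x ∧
      aeval P f = z ^ 2 * x := by
  have hs : Transcendental ℂ s := ((pair_iff s t).mp hst).1
  obtain ⟨e, he⟩ : ∃ e, eval e f ≠ 0 := by
    by_contra h
    push Not at h
    exact hf0 (MvPolynomial.funext fun x => by rw [h x, map_zero])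
  have he0 : e ≠ 0 := by
    rintro rfl
    exact he (eval_zero_of_homogeneous (by norm_num) hf)
  obtain ⟨w₀, w₁, hdet⟩ := exists_basis he0
  let s' : cl s := ⟨s, self_mem_cl s⟩
  let u : Fin 3 → cl s := fun i => up w₀ i + s' * up w₁ i
  have _ := isAlgClosed_cl s
  have hdeg : (lineP f u (up e)).degree ≠ 0 := by
    intro h
    have hnat : (lineP f u (up e)).natDegree = 0 := Polynomial.natDegree_eq_of_degree_eq_some h
    have h1 := congrArg (fun p => Polynomial.coeff p 0) (eval_reflect_lineP hf u (up e))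
    simp only [coeff_zero_lineP, Polynomial.coeff_reflect] at h1
    rw [Polynomial.revAt_le (by norm_num), Polynomial.coeff_eq_zero_of_natDegree_lt (by
      rw [hnat]; norm_num), aeval_up] at h1
    exact he ((FaithfulSMul.algebraMap_eq_zero_iff ℂ (cl s)).mp h1.symm)
  obtain ⟨y, hy⟩ := IsAlgClosed.exists_root _ hdeg
  rw [Polynomial.IsRoot, eval_lineP] at hy
  let b : Fin 3 → cl s := fun i => u i + y * up e i
  have hb : aeval b f = 0 := hy
  let γ : Fin 3 → cl s := fun k => aeval b (pderiv k f)
  have hbval : (fun i => (b i : Ω)) = fun i => up w₀ i + s * up w₁ i + (y : Ω) * up e i := rfl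
  by_cases hγ : γ = 0
  · refine tangent_split hst hf (τ := up e) hb ?_ ?_
    · apply Finset.sum_eq_zero
      intro k _
      have : aeval b (pderiv k f) = 0 := congrFun hγ k
      rw [this, mul_zero]
    · intro z hz
      have h1 : (fun i => (b i : Ω) + z * ((up e : Fin 3 → cl s) i : Ω)) =
          fun i => up w₀ i + s * up w₁ i + ((y : Ω) + z) * up e i := by
        funext i
        have h2 : (b i : Ω) = up w₀ i + s * up w₁ i + (y : Ω) * up e i := rfl
        have h3 : ((up e : Fin 3 → cl s) i : Ω) = up e i := rfl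
        rw [h2, h3]
        ring
      rw [h1]
      apply generic_pencil hdet
      apply pair_of_cl (self_mem_cl s) hs
      intro h
      apply hz
      have := sub_mem h y.2
      rwa [add_sub_cancel_left] at this
  · obtain ⟨k₀, hk₀⟩ := Function.ne_iff.mp hγ
    let h : Fin 3 → ℂ := cr w₁ e
    let e' : Fin 3 → ℂ := Pi.single k₀ 1
    have hbh : dot b (up h) = algebraMap ℂ (cl s) (det3 w₀ w₁ e) := by
      have h1 := up_mul_add h w₀ w₁ e s' y
      have h2 : dot h w₀ = det3 w₀ w₁ e := by simp [h, dot, cr, det3]; ring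
      have h3 : dot h w₁ = 0 := by simp [h, dot, cr]; ring
      have h4 : dot h e = 0 := by simp [h, dot, cr]; ring
      rw [h2, h3, h4, map_zero, mul_zero, mul_zero, add_zero, add_zero] at h1
      exact h1
    have hbh0 : dot b (up h) ≠ 0 := by
      rw [hbh, Ne, FaithfulSMul.algebraMap_eq_zero_iff]
      exact hdet
    have hγe : dot γ (up e') ≠ 0 := by
      have h1 : dot γ (up e') = γ k₀ := by
        simp only [e']
        generalize k₀ = k
        fin_cases k <;> simp [dot, up]
      rw [h1]
      exact hk₀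
    have hbγ : dot b γ = 0 := by
      have h1 := hf.sum_X_mul_pderiv
      have h2 := congrArg (aeval b) h1
      rw [map_sum] at h2
      simp only [map_mul, aeval_X, map_nsmul, hb, smul_zero] at h2
      rw [dot_eq_sum]
      exact h2
    let τ : Fin 3 → cl s := cr γ (up h)
    have hcr : ∀ i, cr b τ i = dot b (up h) * γ i := by
      intro i
      have h1 : cr b τ i = dot b (up h) * γ i - dot b γ * up h i := by
        fin_cases i <;> simp [τ, cr, dot] <;> ring
      rw [h1, hbγ, zero_mul, sub_zero]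
    have hdet3 : det3 b τ (up e') = dot b (up h) * dot γ (up e') := by
      rw [det3_eq_dot]
      simp only [dot] at hcr ⊢
      simp only [hcr]
      ring
    refine tangent_split hst hf (τ := τ) hb ?_ ?_
    · have h1 : ∑ k, τ k * aeval b (pderiv k f) = dot τ γ := by rw [dot_eq_sum]
      rw [h1]
      simp [τ, dot, cr]
      ring
    · intro z hz
      have hcast : det3 (fun i => (b i : Ω)) (fun i => (τ i : Ω)) (up e') =
          ((det3 b τ (up e') : cl s) : Ω) := rfl
      rcases generic_or_const (b := b) (τ := τ) (e := e') (z := z) (by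
        rw [hcast, hdet3]
        intro h0
        have h1 : dot b (up h) * dot γ (up e') = 0 := Subtype.ext h0
        exact mul_ne_zero hbh0 hγe h1) hz with hgen | ⟨l, hl⟩
      · exact hgen
      · exfalso
        rw [hcast] at hl
        have hκ0 : ((det3 b τ (up e') : cl s) : Ω) ≠ 0 := by
          rw [hdet3]
          intro h0
          exact mul_ne_zero hbh0 hγe (Subtype.ext h0)
        have hbl : dot (fun i => (b i : Ω)) (up l) = 0 := by
          have h1 : dot (fun i => (b i : Ω)) (cr (fun i => (b i : Ω)) (fun i => (τ i : Ω))) = 0 := by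
            simp [dot, cr]; ring
          have h2 : dot (fun i => (b i : Ω)) (cr (fun i => (b i : Ω)) (fun i => (τ i : Ω))) =
              ((det3 b τ (up e') : cl s) : Ω) * dot (fun i => (b i : Ω)) (up l) := by
            simp only [dot, hl]
            ring
          rw [h1] at h2
          rcases mul_eq_zero.mp h2.symm with h3 | h3
          · exact absurd h3 hκ0
          · exact h3
        have hl0 : l ≠ 0 := by
          rintro rfl
          have h1 : cr (fun i => (b i : Ω)) (fun i => (τ i : Ω)) k₀ = 0 := by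
            rw [hl]; simp [up]
          have h2 : cr (fun i => (b i : Ω)) (fun i => (τ i : Ω)) k₀ = ((cr b τ k₀ : cl s) : Ω) := by
            generalize k₀ = k
            fin_cases k <;> rfl
          rw [h2, hcr] at h1
          exact mul_ne_zero hbh0 hk₀ (Subtype.ext h1)
        have hbf : aeval (fun i => up w₀ i + s * up w₁ i + (y : Ω) * up e i) f = 0 := by
          have h1 := aeval_algebraMap_apply Ω b f
          rw [hb, map_zero] at h1
          exact h1
        obtain ⟨hle, hvan⟩ := vanish_of_generic_point hf hdet hl0 hs hbf (by rw [← hbval]; exact hbl)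
        obtain ⟨v, hv, hv2⟩ := exists_singular_of_line (by norm_num) hf hle hvan
        exact hsm v hv hv2

end Pool.Agent.N197.Pln
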